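import Pool.Agent.MOQ.FNL

/-!
# Languages of unary and binary relations satisfy the hypothesis on atomic facts
-/

set_option autoImplicit false
set_option linter.unusedSectionVars false
set_option linter.unusedVariables false

namespace Pool.Agent.MOQ

open Set Pool.Agent.Helper5 Pool.Agent.Helper5.DU Pool.Agent.Helper6.Str
  Pool.Agent.Helper79.VC Pool.Agent.Helper97.VC Pool.Agent.Helper97.MD Pool.Agent.Helper6.VC
  Pool.Agent.Helper97.LO Pool.Agent.MON Pool.Agent.MOP

variable {L : FirstOrder.Language.{0, 0}} {M N P : Type}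

namespace COR

/-- the atomic binary formulas, by an enumeration of the binary symbols -/
def fR (en : ℕ → Option (L.Relations 2)) (k : ℕ) : FmI L 2 :=
  match en k with
  | none => .eq 0 1
  | some Q => .rel Q ![0, 1]

/-- the atomic unary formulas, by an enumeration of the unary symbols -/
def fU (en : ℕ → Option (L.Relations 1)) (k : ℕ) : FmI L 1 :=
  match en k with
  | none => .eq 0 0
  | some Q => .rel Q ![0]

/-- the translation of types -/
def g (en : ℕ → Option (L.Relations 2)) (a : Set (L.Relations 2)) : Set (LT.Relations 2) :=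
  {r : Option ℕ | ∃ k, r = some k ∧ ∃ Q ∈ a, en k = some Q}

theorem g_inj {en : ℕ → Option (L.Relations 2)} (hen : Function.Surjective en) :
    Function.Injective (g en) := by
  have key : ∀ (a : Set (L.Relations 2)) Q k, en k = some Q →
      (((some k : Option ℕ) : LT.Relations 2) ∈ g en a ↔ Q ∈ a) := by
    intro a Q k hk
    constructor
    · rintro ⟨k', h1, Q', h2, h3⟩
      have h4 : k = k' := Option.some.inj h1
      subst h4
      rw [hk] at h3
      rwa [Option.some.inj h3]
    · intro h
      exact ⟨k, rfl, Q, h, hk⟩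
  intro a b hab
  ext Q
  obtain ⟨k, hk⟩ := hen (some Q)
  rw [← key a Q k hk, ← key b Q k hk, hab]

theorem bt_theta (en : ℕ → Option (L.Relations 2)) (U : ℕ → FmI L 1) (S : L.Structure M)
    {x y : M} (hxy : x ≠ y) : bt (theta (.eq 0 1) (fR en) U S) x y =
      (g en (bt S x y).1, g en (bt S x y).2) := by
  have key : ∀ {x y : M}, x ≠ y → ∀ r : LT.Relations 2,
      (theta (.eq 0 1) (fR en) U S).RelMap (n := 2) r ![x, y] ↔
        r ∈ g en {Q | S.RelMap Q ![x, y]} := by
    intro x y hxy r
    match r with
    | none =>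
      constructor
      · intro h
        exact absurd h hxy
      · rintro ⟨k, h1, -⟩
        exact absurd h1 (by simp)
    | some k =>
      show rl2 S (fR en k) x y ↔ _
      constructor
      · intro h
        unfold rl2 fR at h
        rcases hk : en k with _ | Q
        · rw [hk] at h
          exact absurd h hxy
        · rw [hk] at h
          refine ⟨k, rfl, Q, ?_, hk⟩
          have e1 : (fun i => (![x, y] : Fin 2 → M) ((![0, 1] : Fin 2 → Fin 2) i)) = ![x, y] := by
            funext i
            match i with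
            | 0 => rfl
            | 1 => rfl
          have h' : S.RelMap Q (fun i => (![x, y] : Fin 2 → M) ((![0, 1] : Fin 2 → Fin 2) i)) := h
          rwa [e1] at h'
      · rintro ⟨k', h1, Q, h2, h3⟩
        have h4 : k = k' := Option.some.inj h1
        subst h4
        unfold rl2 fR
        rw [h3]
        have e1 : (fun i => (![x, y] : Fin 2 → M) ((![0, 1] : Fin 2 → Fin 2) i)) = ![x, y] := by
          funext i
          match i with
          | 0 => rfl
          | 1 => rfl
        show S.RelMap Q (fun i => (![x, y] : Fin 2 → M) ((![0, 1] : Fin 2 → Fin 2) i))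
        rw [e1]
        exact h2
  refine Prod.ext ?_ ?_
  · ext r
    exact key hxy r
  · ext r
    exact key hxy.symm r

theorem atomDet (hL : Ar2 L) {enU : ℕ → Option (L.Relations 1)}
    {en : ℕ → Option (L.Relations 2)} (hU : Function.Surjective enU)
    (hen : Function.Surjective en) (S : L.Structure M) :
    AtomDet (.eq 0 1) (fR en) (fU enU) S := by
  intro n r v w h1 h2 h3
  by_cases hn1 : n = 1
  · subst hn1
    obtain ⟨k, hk⟩ := hU (some r)
    have := h1 0 k
    unfold rl1 fU at this
    rw [hk] at this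
    have e1 : ∀ v : Fin 1 → M, (fun i => (![v 0] : Fin 1 → M) ((![0] : Fin 1 → Fin 1) i)) = v := by
      intro v
      funext i
      match i with
      | 0 => rfl
    have h' : S.RelMap r (fun i => (![v 0] : Fin 1 → M) ((![0] : Fin 1 → Fin 1) i)) ↔
      S.RelMap r (fun i => (![w 0] : Fin 1 → M) ((![0] : Fin 1 → Fin 1) i)) := this
    rwa [e1, e1] at h'
  by_cases hn2 : n = 2
  · subst hn2
    obtain ⟨k, hk⟩ := hen (some r)
    have := h3 0 1 k
    unfold rl2 fR at this
    rw [hk] at this
    have e1 : ∀ v : Fin 2 → M,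
        (fun i => (![v 0, v 1] : Fin 2 → M) ((![0, 1] : Fin 2 → Fin 2) i)) = v := by
      intro v
      funext i
      match i with
      | 0 => rfl
      | 1 => rfl
    have h' : S.RelMap r (fun i => (![v 0, v 1] : Fin 2 → M) ((![0, 1] : Fin 2 → Fin 2) i)) ↔
      S.RelMap r (fun i => (![w 0, w 1] : Fin 2 → M) ((![0, 1] : Fin 2 → Fin 2) i)) := this
    rwa [e1, e1] at h'
  exact ((hL n hn1 hn2).false r).elim

theorem isPrim_of {en : ℕ → Option (L.Relations 2)} (hen : Function.Surjective en)
    (U : ℕ → FmI L 1) {S : L.Structure M} {P : Set M}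
    (hP : IsPrim (bt (theta (.eq 0 1) (fR en) U S)) P) : IsPrim (bt S) P := by
  intro X hX hmod
  refine hP X hX fun z hz hzX x hx x' hx' => ?_
  have h1 := hmod z hz hzX x hx x' hx'
  have n1 : z ≠ x := fun h => hzX (h ▸ hx)
  have n2 : z ≠ x' := fun h => hzX (h ▸ hx')
  rw [bt_theta en U S n1, bt_theta en U S n2, h1]

end COR

/-- A structure with unary and binary relations in which each infinite primitive set is sparse or
of finite clique-width satisfies the hypothesis of the main theorem. -/
theorem primParts_of_spCWPrim [∀ n, Countable (L.Relations n)] :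
    ∃ (lam : FmI L 2) (R : ℕ → FmI L 2) (U : ℕ → FmI L 1), Ar2 L → ∀ (Θ : ℕ → Sch (LT.Relations 2))
      (M : Type) (S : L.Structure M), SpCWPrim S →
      AtomDet lam R U S ∧ PrimParts Θ (theta lam R U S) := by
  obtain ⟨en, hen⟩ := exists_surjective_nat (Option (L.Relations 2))
  obtain ⟨enU, hU⟩ := exists_surjective_nat (Option (L.Relations 1))
  refine ⟨.eq 0 1, COR.fR en, COR.fU enU, fun hL Θ M S h => ⟨COR.atomDet hL hU hen S, ?_⟩⟩
  intro P hP hprim
  rcases h P hP (COR.isPrim_of hen _ hprim) with ⟨b, hb⟩ | ⟨k, hk⟩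
  · refine Or.inl ⟨COR.g en b, fun hTK => hb ?_⟩
    refine TR.hasTK_map (f := id) Function.injective_id (fun x y hxy => ?_) hTK
    obtain ⟨h1, h2, h3, h4⟩ := hxy
    refine ⟨h1, h2, h3, fun h5 => h4 ?_⟩
    have h6 : bt S x y = (b, b) := h5
    rw [COR.bt_theta en _ S h1, h6]
  · refine Or.inr (Or.inl ⟨k, ?_⟩)
    refine FinCW.comap (τ := bt S) (fun t => (COR.g en t.1, COR.g en t.2)) (e := id)
      Function.injective_id (fun x y hxy => COR.bt_theta en _ S hxy) ?_
    rwa [image_id]

/-- Structures with sparse or monotone primitive parts. -/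
theorem primParts_of_monPrim {Θ : ℕ → Sch (L.Relations 2)} {S : L.Structure M}
    (h : MonPrim Θ S) : PrimParts Θ S := by
  intro P hP hprim
  rcases h P hP hprim with h1 | ⟨t, ht⟩
  · exact Or.inl h1
  · exact Or.inr (Or.inr ⟨t, LinOver.of_mon ht⟩)

/-- The theorem on finite clique-width as a special case of the main theorem. -/
theorem dichotomy_of_spCWPrim' (hPM : PMStatement) (hc : Countable L.Symbols)
    (hrel : ∀ n, IsEmpty (L.Functions n))
    (hL : ∀ n, n ≠ 1 → n ≠ 2 → IsEmpty (L.Relations n)) (T : L.Theory)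
    (φ : FmI L 0)
    (h : ∀ S : L.Structure ℕ, IsMod T φ S → SpCWPrim S) :
    (∃ g : ℕ → L.Structure ℕ, ∀ S : L.Structure ℕ, IsMod T φ S →
        ∃ n : ℕ, Nonempty (@FirstOrder.Language.Equiv L ℕ ℕ S (g n))) ∨
    (∃ f : (ℕ → Bool) → L.Structure ℕ,
        (∀ x : ℕ → Bool, IsMod T φ (f x)) ∧
        (∀ x y : ℕ → Bool,
            Nonempty (@FirstOrder.Language.Equiv L ℕ ℕ (f x) (f y)) → x = y) ∧
        (∀ (n : ℕ) (R : L.Relations n) (a : Fin n → ℕ),
            IsClopen {x : ℕ → Bool | @FirstOrder.Language.Structure.RelMap L ℕ (f x) n R a})) := by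
  have hcr : ∀ n, Countable (L.Relations n) := countable_relations hc
  obtain ⟨lam, R, U, hcor⟩ := primParts_of_spCWPrim (L := L)
  exact dichotomy_of_primParts hPM hc hrel T φ lam R U
    (fun _ => ⟨0, fun _ => .eq 0 1, fun _ => .eq 0 0⟩) fun S hS => hcor hL _ ℕ S (h S hS)

end Pool.Agent.MOQ
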