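import Pool.Agent.MOP.Defs
import Pool.Agent.VCw.FDefs

/-!
# Structures whose primitive parts are sparse, of finite clique-width, or linear orders with
increasing and decreasing relations: definitions
-/

set_option autoImplicit false
set_option linter.unusedSectionVars false
set_option linter.unusedVariables false

namespace Pool.Agent.MOQ

open Set Pool.Agent.Helper5 Pool.Agent.Helper5.DU Pool.Agent.Helper6.Str
  Pool.Agent.Helper79.VC Pool.Agent.Helper97.VC Pool.Agent.Helper97.MD Pool.Agent.Helper6.VC
  Pool.Agent.Helper97.LO Pool.Agent.MOP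

variable {L : FirstOrder.Language.{0, 0}} {M N P : Type}

/-- `R` is an increasing relation for the order `le`: if it holds for a pair, then also for the
pairs with a smaller first and a larger second point. -/
def Inc (le R : M → M → Prop) : Prop :=
  ∀ x' x y y', le x' x → R x y → le y y' → R x' y'

/-- `R` is a decreasing relation for the order `le`: if it holds for a pair, then also for the
pairs with a smaller first and a smaller second point. -/
def Dec (le R : M → M → Prop) : Prop :=
  ∀ x' x y' y, le x' x → R x y → le y' y → R x' y'

/-- `D 0` is a linear order on the set `P`, each relation `D j` is increasing or decreasing, and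
together with the sets `U j` they determine the binary relations between different elements of
`P`. -/
structure LinAt {R : Type} (θ : Sch R) (τ : M → M → Set R × Set R) (P : Set M)
    (c : Fin θ.n → P) : Prop where
  refl : ∀ x, θ.rel τ P c 0 x x
  anti : ∀ x y, θ.rel τ P c 0 x y → θ.rel τ P c 0 y x → x = y
  trans : ∀ x y z, θ.rel τ P c 0 x y → θ.rel τ P c 0 y z → θ.rel τ P c 0 x z
  total : ∀ x y, θ.rel τ P c 0 x y ∨ θ.rel τ P c 0 y x
  mono : ∀ j, Inc (θ.rel τ P c 0) (θ.rel τ P c j) ∨ Dec (θ.rel τ P c 0) (θ.rel τ P c j)
  det : ∀ x y x' y', x ≠ y → x' ≠ y' → (∀ j, θ.un τ P c j x ↔ θ.un τ P c j x') →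
    (∀ j, θ.un τ P c j y ↔ θ.un τ P c j y') → (∀ j, θ.rel τ P c j x y ↔ θ.rel τ P c j x' y') →
    (∀ j, θ.rel τ P c j y x ↔ θ.rel τ P c j y' x') → τ x y = τ x' y'

/-- `P` is a linear order with increasing and decreasing relations, by the scheme `θ` with suitable
parameters in `P` -/
def LinOver {R : Type} (τ : M → M → Set R × Set R) (θ : Sch R) (P : Set M) : Prop :=
  ∃ c : Fin θ.n → P, LinAt θ τ P c

/-- Each infinite primitive set is sparse up to a background type, or of finite clique-width, or a
linear order with increasing and decreasing relations by one of the schemes of the list `Θ`. -/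
def PrimParts (Θ : ℕ → Sch (L.Relations 2)) (S : L.Structure M) : Prop :=
  ∀ P : Set M, P.Infinite → IsPrim (bt S) P →
    (∃ b : Set (L.Relations 2), ¬ HasTK (gr S P b)) ∨ (∃ k, FinCW (bt S) P k) ∨
      ∃ t, LinOver (bt S) (Θ t) P

end Pool.Agent.MOQ
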