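import Pool.Agent.MOQ.Defs
import Pool.Agent.MOP.RFLm

/-!
# Structures whose primitive parts are sparse, of finite clique-width, or linear orders with
increasing and decreasing relations: reflection
-/

set_option autoImplicit false
set_option linter.unusedSectionVars false
set_option linter.unusedVariables false

namespace Pool.Agent.MOQ

open Set Pool.Agent.Helper5 Pool.Agent.Helper5.DU Pool.Agent.Helper6.Str
  Pool.Agent.Helper79.VC Pool.Agent.Helper97.VC Pool.Agent.Helper97.MD Pool.Agent.Helper6.VC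
  Pool.Agent.Helper97.LO Pool.Agent.Helper79.VCM Pool.Agent.MON Pool.Agent.MOP

/-! ### transfer of finite clique-width -/

section cw

variable {M N A : Type}

private theorem rfl_transfer {τ : M → M → A} {τ' : N → N → A} {f : N → M}
    (hf : Function.Injective f) (hτ : ∀ x y, τ' x y = τ (f x) (f y)) {P' : Set N} {k : ℕ}
    (h : FinCW τ' P' k) (F : Finset M) (hne : F.Nonempty) (hF : ∀ x ∈ F, ∃ y ∈ P', f y = x) :
    ∃ T : Set (Finset M), F ∈ T ∧
    ∀ Y ∈ T, Y.Nonempty ∧ Y ⊆ F ∧ CutIn τ (F : Set M) (Y : Set M) k ∧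
      (2 ≤ Y.card → ∃ Y₁ ∈ T, ∃ Y₂ ∈ T, Disjoint Y₁ Y₂ ∧ ∀ x, x ∈ Y ↔ x ∈ Y₁ ∨ x ∈ Y₂) := by
  classical
  obtain ⟨x₀, hx₀⟩ := hne
  obtain ⟨y₀, hy₀, hfy₀⟩ := hF x₀ hx₀
  have : Nonempty N := ⟨y₀⟩
  let g : M → N := Function.invFun f
  have hg : ∀ y, g (f y) = y := Function.leftInverse_invFun hf
  have hFf : ∀ x ∈ F, f (g x) = x := by
    intro x hx
    obtain ⟨y, -, rfl⟩ := hF x hx
    rw [hg]
  let e : N ↪ M := ⟨f, hf⟩
  obtain ⟨F', hF'⟩ : ∃ F' : Finset N, F'.map e = F := by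
    refine ⟨F.image g, ?_⟩
    ext x
    rw [Finset.mem_map]
    constructor
    · rintro ⟨y, hy, rfl⟩
      obtain ⟨x, hx, rfl⟩ := Finset.mem_image.1 hy
      show f (g x) ∈ F
      rwa [hFf x hx]
    · intro hx
      exact ⟨g x, Finset.mem_image_of_mem g hx, hFf x hx⟩
  subst hF'
  have hm : ∀ (Y : Finset N) (x : M), x ∈ Y.map e ↔ ∃ y ∈ Y, f y = x := fun Y x =>
    Finset.mem_map
  have hmf : ∀ (Y : Finset N) (y : N), f y ∈ Y.map e ↔ y ∈ Y := by
    intro Y y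
    rw [hm]
    exact ⟨fun ⟨z, hz, hzy⟩ => hf hzy ▸ hz, fun hy => ⟨y, hy, rfl⟩⟩
  obtain ⟨T, hT1, hT2⟩ := h F' (by
    intro y hy
    obtain ⟨z, hz, hzy⟩ := hF (f y) ((hmf F' y).2 hy)
    rwa [← hf hzy]) (by
    obtain ⟨y, hy, -⟩ := (hm _ _).1 hx₀
    exact ⟨y, hy⟩)
  refine ⟨(fun Y => Y.map e) '' T, ⟨F', hT1, rfl⟩, ?_⟩
  rintro _ ⟨Y, hY, rfl⟩
  obtain ⟨h1, h2, ⟨⟨r, hr⟩, s, hs⟩, h4⟩ := hT2 Y hY
  refine ⟨h1.map, Finset.map_subset_map.2 h2, ⟨⟨fun x => r (g x), ?_⟩, fun x => s (g x), ?_⟩, ?_⟩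
  · intro x hx hxY x' hx' hxY' hrr z hz hzY
    obtain ⟨a, ha, rfl⟩ := (hm _ _).1 (Finset.mem_coe.1 hx)
    obtain ⟨a', ha', rfl⟩ := (hm _ _).1 (Finset.mem_coe.1 hx')
    obtain ⟨b, hb, rfl⟩ := (hm _ _).1 (Finset.mem_coe.1 hz)
    rw [Finset.mem_coe, hmf] at hxY hxY' hzY
    simp only [hg] at hrr
    rw [← hτ, ← hτ]
    exact hr a ha hxY a' ha' hxY' hrr b hb hzY
  · intro x hx hxY x' hx' hxY' hrr z hz hzY
    obtain ⟨a, ha, rfl⟩ := (hm _ _).1 (Finset.mem_coe.1 hx)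
    obtain ⟨a', ha', rfl⟩ := (hm _ _).1 (Finset.mem_coe.1 hx')
    obtain ⟨b, hb, rfl⟩ := (hm _ _).1 (Finset.mem_coe.1 hz)
    rw [Finset.mem_coe, hmf] at hxY hxY' hzY
    simp only [hg] at hrr
    rw [← hτ, ← hτ]
    exact hs a ha hxY a' ha' hxY' hrr b hb hzY
  · intro hcard
    rw [Finset.card_map] at hcard
    obtain ⟨Y₁, hY₁, Y₂, hY₂, hdis, hun⟩ := h4 hcard
    refine ⟨_, ⟨Y₁, hY₁, rfl⟩, _, ⟨Y₂, hY₂, rfl⟩, (Finset.disjoint_map e).2 hdis, fun x => ?_⟩
    simp only [hm]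
    constructor
    · rintro ⟨y, hy, rfl⟩
      rcases (hun y).1 hy with hy | hy
      · exact Or.inl ⟨y, hy, rfl⟩
      · exact Or.inr ⟨y, hy, rfl⟩
    · rintro (⟨y, hy, rfl⟩ | ⟨y, hy, rfl⟩)
      · exact ⟨y, (hun y).2 (Or.inl hy), rfl⟩
      · exact ⟨y, (hun y).2 (Or.inr hy), rfl⟩

end cw

/-! ### local failure of monotonicity -/

section mon

variable {R : Type} {M N : Type}

/-- the conditions of `LinAt` for the elements of `G` -/
structure LinOn (θ : Sch R) (τ : M → M → Set R × Set R) (P : Set M) (c : Fin θ.n → P)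
    (G : Set P) : Prop where
  refl : ∀ x ∈ G, θ.rel τ P c 0 x x
  anti : ∀ x ∈ G, ∀ y ∈ G, θ.rel τ P c 0 x y → θ.rel τ P c 0 y x → x = y
  trans : ∀ x ∈ G, ∀ y ∈ G, ∀ z ∈ G, θ.rel τ P c 0 x y → θ.rel τ P c 0 y z → θ.rel τ P c 0 x z
  total : ∀ x ∈ G, ∀ y ∈ G, θ.rel τ P c 0 x y ∨ θ.rel τ P c 0 y x
  mono : ∀ j, (∀ x' ∈ G, ∀ x ∈ G, ∀ y ∈ G, ∀ y' ∈ G, θ.rel τ P c 0 x' x → θ.rel τ P c j x y →
      θ.rel τ P c 0 y y' → θ.rel τ P c j x' y') ∨
    ∀ x' ∈ G, ∀ x ∈ G, ∀ y' ∈ G, ∀ y ∈ G, θ.rel τ P c 0 x' x → θ.rel τ P c j x y →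
      θ.rel τ P c 0 y' y → θ.rel τ P c j x' y'
  det : ∀ x ∈ G, ∀ y ∈ G, ∀ x' ∈ G, ∀ y' ∈ G, x ≠ y → x' ≠ y' →
    (∀ j, θ.un τ P c j x ↔ θ.un τ P c j x') →
    (∀ j, θ.un τ P c j y ↔ θ.un τ P c j y') → (∀ j, θ.rel τ P c j x y ↔ θ.rel τ P c j x' y') →
    (∀ j, θ.rel τ P c j y x ↔ θ.rel τ P c j y' x') → τ x y = τ x' y'

theorem LinOn.mono' {θ : Sch R} {τ : M → M → Set R × Set R} {P : Set M} {c : Fin θ.n → P}
    {G G' : Set P} (h : LinOn θ τ P c G') (hG : G ⊆ G') : LinOn θ τ P c G :=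
  ⟨fun x hx => h.refl x (hG hx), fun x hx y hy => h.anti x (hG hx) y (hG hy),
    fun x hx y hy z hz => h.trans x (hG hx) y (hG hy) z (hG hz),
    fun x hx y hy => h.total x (hG hx) y (hG hy),
    fun j => (h.mono j).imp
      (fun h' x' hx' x hx y hy y' hy' => h' x' (hG hx') x (hG hx) y (hG hy) y' (hG hy'))
      fun h' x' hx' x hx y hy y' hy' => h' x' (hG hx') x (hG hx) y (hG hy) y' (hG hy'),
    fun x hx y hy x' hx' y' hy' => h.det x (hG hx) y (hG hy) x' (hG hx') y' (hG hy')⟩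

/-- monotonicity is a local property -/
theorem linAt_of_finite {θ : Sch R} {τ : M → M → Set R × Set R} {P : Set M} {c : Fin θ.n → P}
    (h : ∀ G : Finset P, LinOn θ τ P c (G : Set P)) : LinAt θ τ P c := by
  classical
  refine ⟨fun x => ?_, fun x y => ?_, fun x y z => ?_, fun x y => ?_, fun j => ?_,
    fun x y x' y' => ?_⟩
  · exact (h {x}).refl x (by simp)
  · exact (h {x, y}).anti x (by simp) y (by simp)
  · exact (h {x, y, z}).trans x (by simp) y (by simp) z (by simp)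
  · exact (h {x, y}).total x (by simp) y (by simp)
  · by_contra hcon
    rw [not_or] at hcon
    obtain ⟨h1, h2⟩ := hcon
    unfold Inc at h1
    unfold Dec at h2
    push Not at h1 h2
    obtain ⟨x', x, y, y', a1, a2, a3, a4⟩ := h1
    obtain ⟨u', u, v', v, b1, b2, b3, b4⟩ := h2
    rcases (h ({x', x, y, y'} ∪ {u', u, v', v})).mono j with h3 | h3
    · exact a4 (h3 x' (by simp) x (by simp) y (by simp) y' (by simp) a1 a2 a3)
    · exact b4 (h3 u' (by simp) u (by simp) v' (by simp) v (by simp) b1 b2 b3)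
  · exact (h {x, y, x', y'}).det x (by simp) y (by simp) x' (by simp) y' (by simp)

/-- transfer from a substructure -/
theorem linOn_of_linAt {θ : Sch R} {τ : M → M → Set R × Set R} {P : Set M}
    {τ' : N → N → Set R × Set R} {P' : Set N} {f : N → M} (i : P' → P)
    (hif : ∀ x : P', ((i x : P) : M) = f x) (hi : Function.Injective i)
    (hτ : ∀ x y, τ' x y = τ (f x) (f y)) {c' : Fin θ.n → P'}
    (hD : ∀ j (v : Fin (θ.n + 1 + 1) → P'), Sat (offd τ' P') (θ.D j) v ↔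
      Sat (offd τ P) (θ.D j) (i ∘ v))
    (hU : ∀ j (v : Fin (θ.n + 1) → P'), Sat (offd τ' P') (θ.U j) v ↔
      Sat (offd τ P) (θ.U j) (i ∘ v))
    (h : LinAt θ τ' P' c') : LinOn θ τ P (i ∘ c') (range i) := by
  have hs1 : ∀ x : P', i ∘ (Fin.snoc c' x : Fin (θ.n + 1) → P') = Fin.snoc (i ∘ c') (i x) := by
    intro x
    funext j
    refine Fin.lastCases ?_ (fun j => ?_) j
    · simp
    · simp
  have hs2 : ∀ x y : P', i ∘ (Fin.snoc (Fin.snoc c' x : Fin (θ.n + 1) → P') y :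
      Fin (θ.n + 1 + 1) → P') = Fin.snoc (Fin.snoc (i ∘ c') (i x) : Fin (θ.n + 1) → P) (i y) := by
    intro x y
    funext j
    refine Fin.lastCases ?_ (fun j => ?_) j
    · simp
    · rw [← hs1]
      simp
  have hr : ∀ j x y, θ.rel τ P (i ∘ c') j (i x) (i y) ↔ θ.rel τ' P' c' j x y := by
    intro j x y
    unfold Sch.rel
    rw [← hs2]
    exact (hD j _).symm
  have hu : ∀ j x, θ.un τ P (i ∘ c') j (i x) ↔ θ.un τ' P' c' j x := by
    intro j x
    unfold Sch.un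
    rw [← hs1]
    exact (hU j _).symm
  refine ⟨?_, ?_, ?_, ?_, ?_, ?_⟩
  · rintro _ ⟨x, rfl⟩
    exact (hr _ _ _).2 (h.refl x)
  · rintro _ ⟨x, rfl⟩ _ ⟨y, rfl⟩ h1 h2
    rw [h.anti x y ((hr _ _ _).1 h1) ((hr _ _ _).1 h2)]
  · rintro _ ⟨x, rfl⟩ _ ⟨y, rfl⟩ _ ⟨z, rfl⟩ h1 h2
    exact (hr _ _ _).2 (h.trans x y z ((hr _ _ _).1 h1) ((hr _ _ _).1 h2))
  · rintro _ ⟨x, rfl⟩ _ ⟨y, rfl⟩
    rcases h.total x y with h1 | h1
    · exact Or.inl ((hr _ _ _).2 h1)
    · exact Or.inr ((hr _ _ _).2 h1)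
  · intro j
    rcases h.mono j with h0 | h0
    · refine Or.inl ?_
      rintro _ ⟨x', rfl⟩ _ ⟨x, rfl⟩ _ ⟨y, rfl⟩ _ ⟨y', rfl⟩ h1 h2 h3
      exact (hr _ _ _).2 (h0 x' x y y' ((hr _ _ _).1 h1) ((hr _ _ _).1 h2) ((hr _ _ _).1 h3))
    · refine Or.inr ?_
      rintro _ ⟨x', rfl⟩ _ ⟨x, rfl⟩ _ ⟨y', rfl⟩ _ ⟨y, rfl⟩ h1 h2 h3
      exact (hr _ _ _).2 (h0 x' x y' y ((hr _ _ _).1 h1) ((hr _ _ _).1 h2) ((hr _ _ _).1 h3))
  · rintro _ ⟨x, rfl⟩ _ ⟨y, rfl⟩ _ ⟨x', rfl⟩ _ ⟨y', rfl⟩ h1 h2 h3 h4 h5 h6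
    have h7 := h.det x y x' y' (fun h0 => h1 (by rw [h0])) (fun h0 => h2 (by rw [h0]))
      (fun j => ((hu j x).symm.trans (h3 j)).trans (hu j x'))
      (fun j => ((hu j y).symm.trans (h4 j)).trans (hu j y'))
      (fun j => ((hr j x y).symm.trans (h5 j)).trans (hr j x' y'))
      (fun j => ((hr j y x).symm.trans (h6 j)).trans (hr j y' x'))
    rw [hτ, hτ] at h7
    rw [hif, hif, hif, hif]
    exact h7

end mon

/-! ### the reflection -/

section FN

variable {L : FirstOrder.Language.{0, 0}} {M : Type}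
  [∀ n, IsEmpty (L.Functions n)] [∀ n, Countable (L.Relations n)]
  {K : Set (L.Structure ℕ)} {δ : Ordinal.{0}} {S : L.Structure M}
  {lam : FmI L 2} {R : ℕ → FmI L 2} {U : ℕ → FmI L 1}

theorem primParts_reflect (Θ : ℕ → Sch (MON.LT.Relations 2)) (hS : VSt K δ S)
    (h : ∀ T ∈ K, PrimParts Θ (theta lam R U T)) : PrimParts Θ (theta lam R U S) := by
  classical
  intro P hPinf hPrim
  by_contra hcon
  rw [not_or] at hcon
  obtain ⟨hcon, hcon'⟩ := hcon
  rw [not_or] at hcon'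
  obtain ⟨hconw, hconk⟩ := hcon'
  push Not at hcon hconw hconk
  have hFk : ∀ k : ℕ, ∃ F : Finset M, ((F : Set M) ⊆ P ∧ F.Nonempty) ∧
      ¬ ∃ T : Set (Finset M), F ∈ T ∧
      ∀ Y ∈ T, Y.Nonempty ∧ Y ⊆ F ∧ CutIn (bt (theta lam R U S)) (F : Set M) (Y : Set M) k ∧
      (2 ≤ Y.card → ∃ Y₁ ∈ T, ∃ Y₂ ∈ T, Disjoint Y₁ Y₂ ∧ ∀ x, x ∈ Y ↔ x ∈ Y₁ ∨ x ∈ Y₂) := by
    intro k
    have h1 := hconw k
    by_contra h2
    apply h1
    intro F hF hne
    by_contra h3
    exact h2 ⟨F, ⟨hF, hne⟩, h3⟩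
  choose Fk hFkP hFkn using hFk
  obtain ⟨η, hη, e1, e2, e3⟩ := exists_tlev lam R U
  obtain ⟨g1, hg1, hg1'⟩ := exists_prim_closure (N := ℕ) (bt (theta lam R U S)) hPrim
  let e := hPinf.natEmbedding
  -- witnesses of the failure of monotonicity
  have hfail : ∀ t, ∀ c : Fin (Θ t).n → P, ∃ G : Finset P,
      ¬ LinOn (Θ t) (bt (theta lam R U S)) P c (G : Set P) := by
    intro t c
    by_contra h0
    push Not at h0
    exact hconk t ⟨c, linAt_of_finite h0⟩
  choose G hG using hfail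
  -- the complete graphs
  have hch : ∀ b : Set (MON.LT.Relations 2), ∃ W : Set M, W.Countable ∧
      ∃ (v : ℕ → M) (Q : ℕ → ℕ → List M), Function.Injective v ∧
    (∀ i j, i < j → (v i :: (Q i j ++ [v j])).Nodup ∧
      List.IsChain (gr (theta lam R U S) P b).Adj (v i :: (Q i j ++ [v j]))) ∧
    (∀ i j k, i < j → v k ∉ Q i j) ∧
    (∀ i j i' j', i < j → i' < j' → (i, j) ≠ (i', j') → List.Disjoint (Q i j) (Q i' j')) ∧
    (∀ i, v i ∈ W) ∧ ∀ i j, ∀ x ∈ Q i j, x ∈ W := by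
    intro b
    obtain ⟨v, Q, h1, h2, h3, h4⟩ := hcon b
    refine ⟨range v ∪ ⋃ i, ⋃ j, {x | x ∈ Q i j}, ?_, v, Q, h1, h2, h3, h4, fun i => Or.inl ⟨i, rfl⟩,
      fun i j x hx => Or.inr ?_⟩
    · exact (countable_range v).union
        (countable_iUnion fun i => countable_iUnion fun j => (List.finite_toSet _).countable)
    · simp only [mem_iUnion]
      exact ⟨i, j, hx⟩
  choose W hW hW' using hch
  -- the closure
  let FP : Finset M → Finset P := fun F => F.subtype (· ∈ P)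
  let gs : Finset M → Set M := fun F => Subtype.val '' (⋃ t, ⋃ j,
    (sk (offd (bt (theta lam R U S)) P) ((Θ t).D j) (FP F) ∪
      sk (offd (bt (theta lam R U S)) P) ((Θ t).U j) (FP F)))
  let gm : Finset M → Set M := fun F => ⋃ t, ⋃ v : Fin (Θ t).n → FP F,
    Subtype.val '' ((G t (fun i => (v i : P)) : Finset P) : Set P)
  have hgs : ∀ F, (gs F).Countable := fun F => (countable_iUnion fun t => countable_iUnion
    fun j => (sk_countable _ _ _).union (sk_countable _ _ _)).image _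
  have hgm : ∀ F, (gm F).Countable := fun F => countable_iUnion fun t => countable_iUnion
    fun v => ((G t _).finite_toSet.image _).countable
  obtain ⟨f, hf, hfK, hfc, -, -, hsat⟩ := exists_reflect_sat hS hη
    (fun F => g1 F ∪ (((range (fun n => (e n : M)) ∪ ⋃ k, (Fk k : Set M)) ∪ (gs F ∪ gm F)) ∪
      ⋃ x ∈ F, ⋃ y ∈ F, W (bt (theta lam R U S) x y).1))
    (fun F => (hg1 F).union ((((countable_range _).union
      (countable_iUnion fun k => (Fk k).finite_toSet.countable)).union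
      ((hgs F).union (hgm F))).union
      ((F.finite_toSet.countable).biUnion fun x _ =>
        (F.finite_toSet.countable).biUnion fun y _ => hW _)))
  have hth : theta lam R U (pl S f) = pl (theta lam R U S) f := theta_pl e1 e2 e3 hsat
  have hbt : (fun a b => bt (theta lam R U S) (f a) (f b)) =
      bt (pl (theta lam R U S) f) := by
    funext a b
    rw [bt_pl]
  have hprim : IsPrim (bt (pl (theta lam R U S) f)) (f ⁻¹' P) := by
    have := hg1' f hf (fun F hF x hx => hfc F hF (Or.inl hx))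
    rwa [hbt] at this
  have hinf : (f ⁻¹' P).Infinite := by
    have hsub : range (fun n => (e n : M)) ⊆ range f := fun x hx =>
      hfc ∅ (by simp) (Or.inr (Or.inl (Or.inl (Or.inl hx))))
    intro hfin
    have h1 : (f '' (f ⁻¹' P)).Finite := hfin.image f
    rw [image_preimage_eq_inter_range] at h1
    have h2 : (range (fun n => (e n : M))).Finite := h1.subset (by
      rintro _ ⟨n, rfl⟩
      exact ⟨(e n).2, hsub ⟨n, rfl⟩⟩)
    exact (infinite_range_of_injective (fun i j hij => e.injective (Subtype.ext hij))) h2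
  have hFkr : ∀ k, ∀ x ∈ Fk k, ∃ y ∈ f ⁻¹' P, f y = x := by
    intro k x hx
    obtain ⟨y, hy⟩ := hfc ∅ (by simp)
      (Or.inr (Or.inl (Or.inl (Or.inr (mem_iUnion.mpr ⟨k, hx⟩)))))
    exact ⟨y, by rw [mem_preimage, hy]; exact (hFkP k).1 hx, hy⟩
  have hh := h _ hfK
  rw [hth] at hh
  rcases hh _ hinf hprim with ⟨b, hb⟩ | ⟨k, hk⟩ | ⟨t, c', hc'⟩
  · apply hb
    by_cases hocc : ∃ x ∈ f ⁻¹' P, ∃ y ∈ f ⁻¹' P, bt (pl (theta lam R U S) f) x y = (b, b)
    · obtain ⟨x, hx, y, hy, hxy⟩ := hocc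
      rw [bt_pl] at hxy
      obtain ⟨v, Q, h1, h2, h3, h4, h5, h6⟩ := hW' b
      have hWr : W b ⊆ range f := by
        intro w hw
        refine hfc {f x, f y} ?_ (Or.inr (Or.inr ?_))
        · intro a ha
          simp only [Finset.coe_insert, Finset.coe_singleton, mem_insert_iff,
            mem_singleton_iff] at ha
          rcases ha with rfl | rfl
          · exact mem_range_self _
          · exact mem_range_self _
        · simp only [mem_iUnion]
          refine ⟨f x, by simp, f y, by simp, ?_⟩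
          rw [hxy]
          exact hw
      refine hasTK_pull (G := gr (theta lam R U S) P b) hf ?_ h1 h2 h3 h4 (fun i => hWr (h5 i))
        (fun i j x hx => hWr (h6 i j x hx))
      rintro x' y' ⟨hne, hx', hy', hbt'⟩
      refine ⟨fun h => hne (by rw [h]), hx', hy', ?_⟩
      rw [bt_pl]
      exact hbt'
    · push Not at hocc
      refine hasTK_of_complete hinf fun x hx y hy hxy => ⟨hxy, hx, hy, hocc x hx y hy⟩
  · exact hFkn k (rfl_transfer hf (fun x y => bt_pl (theta lam R U S) f x y) hk (Fk k)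
      (hFkP k).2 (hFkr k))
  · -- the elements of the substructure
    let i : (f ⁻¹' P : Set ℕ) → P := fun x => ⟨f x, x.2⟩
    have hi : Function.Injective i := by
      intro x y hxy
      have h1 : f x = f y := congrArg Subtype.val hxy
      exact Subtype.ext (hf h1)
    have hir : ∀ a : P, (a : M) ∈ range f → a ∈ range i := by
      rintro a ⟨y, hy⟩
      exact ⟨⟨y, by rw [mem_preimage, hy]; exact a.2⟩, Subtype.ext hy⟩
    have hFr : ∀ F : Finset P, (F : Set P) ⊆ range i →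
        (((F.map ⟨Subtype.val, Subtype.val_injective⟩ : Finset M) : Set M) ⊆ range f) ∧
        FP (F.map ⟨Subtype.val, Subtype.val_injective⟩) = F := by
      intro F hF
      constructor
      · intro x hx
        rw [Finset.coe_map] at hx
        obtain ⟨a, ha, rfl⟩ := hx
        obtain ⟨y, rfl⟩ := hF ha
        exact ⟨y, rfl⟩
      · ext a
        simp only [FP, Finset.mem_subtype, Finset.mem_map, Function.Embedding.coeFn_mk]
        constructor
        · rintro ⟨b, hb, hab⟩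
          rwa [← Subtype.ext hab]
        · exact fun ha => ⟨a, ha, rfl⟩
    have hcl : ∀ t j, (∀ F : Finset P, (F : Set P) ⊆ range i →
        sk (offd (bt (theta lam R U S)) P) ((Θ t).D j) F ⊆ range i) ∧
        ∀ F : Finset P, (F : Set P) ⊆ range i →
        sk (offd (bt (theta lam R U S)) P) ((Θ t).U j) F ⊆ range i := by
      intro t j
      constructor
      · intro F hF a ha
        obtain ⟨h1, h2⟩ := hFr F hF
        refine hir a (hfc _ h1 (Or.inr (Or.inl (Or.inr (Or.inl ⟨a, ?_, rfl⟩)))))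
        rw [h2]
        exact mem_iUnion.2 ⟨t, mem_iUnion.2 ⟨j, Or.inl ha⟩⟩
      · intro F hF a ha
        obtain ⟨h1, h2⟩ := hFr F hF
        refine hir a (hfc _ h1 (Or.inr (Or.inl (Or.inr (Or.inl ⟨a, ?_, rfl⟩)))))
        rw [h2]
        exact mem_iUnion.2 ⟨t, mem_iUnion.2 ⟨j, Or.inr ha⟩⟩
    have hτ : ∀ x y, bt (pl (theta lam R U S) f) x y =
        bt (theta lam R U S) (f x) (f y) := fun x y => by rw [bt_pl]
    have hrel : ∀ (k : ℕ) (r : (binL (MON.LT.Relations 2)).Relations k)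
        (v : Fin k → (f ⁻¹' P : Set ℕ)),
        (offd (bt (pl (theta lam R U S) f)) (f ⁻¹' P)).RelMap r v ↔
          (offd (bt (theta lam R U S)) P).RelMap r (i ∘ v) := by
      intro k r v
      match k, r with
      | 0, r => exact nomatch r
      | 1, r => exact nomatch r
      | 2, r =>
        show (v 0 ≠ v 1 ∧ r ∈ (bt (pl (theta lam R U S) f) (v 0) (v 1)).1) ↔
          (i (v 0) ≠ i (v 1) ∧ r ∈ (bt (theta lam R U S) (f (v 0)) (f (v 1))).1)
        rw [hτ, hi.ne_iff]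
      | (k + 3), r => exact nomatch r
    have hmon := linOn_of_linAt (τ := bt (theta lam R U S)) (P := P) i (fun x => rfl) hi hτ
      (fun j v => sk_sat hi hrel ((Θ t).D j) (hcl t j).1 v)
      (fun j v => sk_sat hi hrel ((Θ t).U j) (hcl t j).2 v) hc'
    refine hG t (i ∘ c') (hmon.mono' fun a ha => ?_)
    have hF : ((Finset.univ.image (i ∘ c') : Finset P) : Set P) ⊆ range i := by
      intro x hx
      simp only [Finset.coe_image, Finset.coe_univ, image_univ] at hx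
      obtain ⟨j, rfl⟩ := hx
      exact ⟨c' j, rfl⟩
    obtain ⟨h1, h2⟩ := hFr _ hF
    have hm : ∀ j, (i ∘ c') j ∈ FP ((Finset.univ.image (i ∘ c')).map
        ⟨Subtype.val, Subtype.val_injective⟩) := by
      intro j
      rw [h2]
      exact Finset.mem_image_of_mem _ (Finset.mem_univ j)
    refine hir a (hfc _ h1 (Or.inr (Or.inl (Or.inr (Or.inr ?_)))))
    refine mem_iUnion.2 ⟨t, mem_iUnion.2 ⟨fun j => ⟨(i ∘ c') j, hm j⟩, ⟨a, ha, rfl⟩⟩⟩

end FN

end Pool.Agent.MOQ
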