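import Pool.Agent.MOQ.SAT
import Pool.Agent.VB.Q

/-!
# The class of a chain of nodes: the case of a linear order
-/

set_option autoImplicit false
set_option linter.unusedSectionVars false
set_option linter.unusedVariables false

namespace Pool.Agent.MOQ

open Set Pool.Agent.Helper5 Pool.Agent.Helper5.DU Pool.Agent.Helper6.Str
  Pool.Agent.Helper79.VC Pool.Agent.Helper97.VC Pool.Agent.Helper97.MD Pool.Agent.Helper6.VC
  Pool.Agent.Helper97.LO Pool.Agent.Helper97.LO.TR Pool.Agent.MON Pool.Agent.MOP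

variable {L : FirstOrder.Language.{0, 0}} {M N P : Type}

section

variable [∀ n, IsEmpty (L.Functions n)] [∀ n, Countable (L.Relations n)]
  {K : Set (L.Structure ℕ)} {δ : Ordinal.{0}} {S : L.Structure M}

/-- **The case of a linear order.** -/
theorem lin_tame (hPM : PMStatement) (hL : Ar2 L) (hS : VSt K δ S) {X R : Set M} [Infinite X] {F : Finset M}
    {η : Ordinal.{0}} (hη : η < om1)
    (hX : ∀ c c', BFR S S univ univ η (insert (c, c') (dg (F : Set M))) → (c ∈ X ↔ c' ∈ X))
    (hR : ∀ c c', BFR S S univ univ η (insert (c, c') (dg (F : Set M))) → (c ∈ R ↔ c' ∈ R))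
    (hXR : X ⊆ R) {c₀ : M} (hc₀ : c₀ ∈ F)
    (hout : ∀ x ∈ X, ∀ x' ∈ X,
      (∀ Q : L.Relations 2, S.RelMap Q ![c₀, x] ↔ S.RelMap Q ![c₀, x']) →
      (∀ Q : L.Relations 2, S.RelMap Q ![x, c₀] ↔ S.RelMap Q ![x', c₀]) →
      ∀ g, g ∉ X → bt S x g = bt S x' g)
    {θ : Sch (L.Relations 2)} (hM : LinOver (bt S) θ R) :
    TameX (expS (pl S (Subtype.val : X → M)) (fun Q x => S.RelMap Q ![c₀, x.1])
      (fun Q x => S.RelMap Q ![x.1, c₀]) (fun _ _ => True)) univ := by
  classical
  obtain ⟨c, hc⟩ := hM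
  obtain ⟨γ, hγ, hγD, hγU⟩ := exists_schLev θ
  let ι : X → R := fun x => ⟨x.1, hXR x.2⟩
  have hι : Function.Injective ι := fun x y h => by
    have h1 : ((ι x : R) : M) = (ι y : R) := by rw [h]
    exact Subtype.ext h1
  let F' : Finset M := F ∪ Finset.univ.image fun i => (c i : M)
  -- unary predicates
  let I : Type := L.Relations 1 ⊕ (L.Relations 2 ⊕ (L.Relations 2 ⊕ (L.Relations 2 ⊕ ℕ)))
  have hIne : Nonempty I := ⟨Sum.inr (Sum.inr (Sum.inr (Sum.inr 0)))⟩
  obtain ⟨en, hen⟩ := exists_surjective_nat I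
  let un : I → X → Prop := fun i x => match i with
    | Sum.inl Q => S.RelMap Q ![x.1]
    | Sum.inr (Sum.inl Q) => S.RelMap Q ![x.1, x.1]
    | Sum.inr (Sum.inr (Sum.inl Q)) => S.RelMap Q ![c₀, x.1]
    | Sum.inr (Sum.inr (Sum.inr (Sum.inl Q))) => S.RelMap Q ![x.1, c₀]
    | Sum.inr (Sum.inr (Sum.inr (Sum.inr j))) => θ.un (bt S) R c j (ι x)
  let le : X → X → Prop := fun x y => θ.rel (bt S) R c 0 (ι x) (ι y)
  let D : ℕ → X → X → Prop := fun j x y => θ.rel (bt S) R c j (ι x) (ι y)
  let S3 : LT.Structure X := tS le D fun k => un (en k)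
  have hS3 : ∀ p : Set (X × X), AtEq S3 S3 p ↔ (∀ a ∈ p, ∀ b ∈ p, a.1 = b.1 ↔ a.2 = b.2) ∧
      (∀ a ∈ p, ∀ i, un i a.1 ↔ un i a.2) ∧ ∀ a ∈ p, ∀ b ∈ p, ∀ j, D j a.1 b.1 ↔ D j a.2 b.2 := by
    intro p
    show AtEq (tS le D fun k => un (en k)) (tS le D fun k => un (en k)) p ↔ _
    rw [atEq_tS]
    refine and_congr_right fun _ => ⟨fun ⟨h1, h2, h3⟩ => ⟨fun a ha i => ?_, h3⟩,
      fun ⟨h1, h3⟩ => ⟨fun a ha k => h1 a ha (en k), fun a ha b hb => h3 a ha b hb 0, h3⟩⟩
    obtain ⟨k, rfl⟩ := hen i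
    exact h1 a ha k
  -- the atomic facts of `S` are given by those of `S3`
  have hdown : ∀ p : Set (X × X), AtEq S3 S3 p →
      AtEq S S ((fun a : X × X => (a.1.1, a.2.1)) '' p) := by
    intro p hp
    obtain ⟨h1, h2, h3⟩ := (hS3 p).mp hp
    have hinj : ∀ a ∈ p, ∀ b ∈ p, (a.1.1 = b.1.1 ↔ a.2.1 = b.2.1) := by
      intro a ha b hb
      have := h1 a ha b hb
      simpa [Subtype.ext_iff] using this
    have hone : ∀ d ∈ (fun a : X × X => (a.1.1, a.2.1)) '' p, AtEq S S {d} := by
      rintro _ ⟨a, ha, rfl⟩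
      refine ⟨?_, fun n Q v hv => ?_⟩
      · rintro _ rfl _ rfl
        simp
      · have hv' : ∀ i, v i = (a.1.1, a.2.1) := fun i => hv i
        by_cases hn1 : n = 1
        · subst hn1
          have e1 : (fun i => (v i).1) = ![a.1.1] := by
            funext i
            rw [hv']
            match i with
            | 0 => rfl
          have e2 : (fun i => (v i).2) = ![a.2.1] := by
            funext i
            rw [hv']
            match i with
            | 0 => rfl
          rw [e1, e2]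
          exact h2 a ha (Sum.inl Q)
        by_cases hn2 : n = 2
        · subst hn2
          have e1 : (fun i => (v i).1) = ![a.1.1, a.1.1] := by
            funext i
            rw [hv']
            match i with
            | 0 => rfl
            | 1 => rfl
          have e2 : (fun i => (v i).2) = ![a.2.1, a.2.1] := by
            funext i
            rw [hv']
            match i with
            | 0 => rfl
            | 1 => rfl
          rw [e1, e2]
          exact h2 a ha (Sum.inr (Sum.inl Q))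
        exact ((hL n hn1 hn2).false Q).elim
    refine atEq_of_pairs hL fun d hd e he => ?_
    obtain ⟨a, ha, rfl⟩ := hd
    obtain ⟨b, hb, rfl⟩ := he
    by_cases hab : a.1 = b.1
    · have hab' : a.2 = b.2 := (h1 a ha b hb).mp hab
      have : b = a := Prod.ext hab.symm hab'.symm
      subst this
      refine AtEq.anti ?_ (hone _ ⟨b, hb, rfl⟩)
      rintro d (rfl | rfl) <;> rfl
    · have hab' : a.2 ≠ b.2 := fun h => hab ((h1 a ha b hb).mpr h)
      refine atEq_pair hL (hone _ ⟨a, ha, rfl⟩) (hone _ ⟨b, hb, rfl⟩) (hinj a ha b hb) ?_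
      have h4 := hc.det (ι a.1) (ι b.1) (ι a.2) (ι b.2) (fun h => hab (hι h))
        (fun h => hab' (hι h))
        (fun j => h2 a ha (Sum.inr (Sum.inr (Sum.inr (Sum.inr j)))))
        (fun j => h2 b hb (Sum.inr (Sum.inr (Sum.inr (Sum.inr j)))))
        (fun j => h3 a ha b hb j) (fun j => h3 b hb a ha j)
      exact h4
  -- the structure `S3` is scattered
  have hV : ∃ (K' : Set (LT.Structure ℕ)) (δ' : Ordinal.{0}), VSt K' δ' S3 := by
    refine VSt.interp hS (e := (Subtype.val : X → M)) Subtype.val_injective F'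
      (η := η + γ) (add_lt_om1 hη hγ) ?_ ?_ ?_
    · intro d d' h
      rw [Subtype.range_val]
      refine hX d d' (BFR.anti ?_ (h.mono le_self_add))
      refine insert_subset_insert ?_
      rintro _ ⟨g, hg, rfl⟩
      exact ⟨g, by simp only [F', Finset.coe_union]; exact Or.inl hg, rfl⟩
    · intro p hpf h
      have h0 : AtEq S S ((fun a : X × X => (a.1.1, a.2.1)) '' p ∪ dg (F' : Set M)) := h.atEq
      have hc₀' : (c₀, c₀) ∈ (fun a : X × X => (a.1.1, a.2.1)) '' p ∪ dg (F' : Set M) := by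
        refine Or.inr ⟨c₀, ?_, rfl⟩
        simp only [F', Finset.coe_union]
        exact Or.inl hc₀
      -- the structure on `R`
      let q : Set (R × R) := (fun a : X × X => (ι a.1, ι a.2)) '' p ∪
        range fun i => (c i, c i)
      have hqf : q.Finite := (hpf.image _).union (finite_range _)
      have hq : BFR (offd (bt S) R) (offd (bt S) R) univ univ γ q := by
        refine VI.restr (S := S) (S' := offd (bt S) R) (e := (Subtype.val : R → M))
          (F := (F' : Set M)) (η := η) ?_ ?_ γ hqf ?_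
        · intro d d' h
          rw [Subtype.range_val]
          refine hR d d' (BFR.anti ?_ h)
          refine insert_subset_insert ?_
          rintro _ ⟨g, hg, rfl⟩
          exact ⟨g, by simp only [F', Finset.coe_union]; exact Or.inl hg, rfl⟩
        · intro r _ h
          exact atEq_offd (AtEq.anti subset_union_left h.atEq)
        · refine BFR.anti ?_ h
          rintro _ (⟨_, (⟨a, ha, rfl⟩ | ⟨i, rfl⟩), rfl⟩ | hd)
          · exact Or.inl ⟨a, ha, rfl⟩
          · refine Or.inr ⟨(c i : M), ?_, rfl⟩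
            simp only [F', Finset.coe_union]
            exact Or.inr (by simp)
          · exact Or.inr hd
      have hci : ∀ i, (c i, c i) ∈ q := fun i => Or.inr ⟨i, rfl⟩
      have hai : ∀ a ∈ p, (ι a.1, ι a.2) ∈ q := fun a ha => Or.inl ⟨a, ha, rfl⟩
      rw [hS3]
      refine ⟨fun a ha b hb => ?_, fun a ha i => ?_, fun a ha b hb j => ?_⟩
      · have := h0.1 _ (Or.inl ⟨a, ha, rfl⟩) _ (Or.inl ⟨b, hb, rfl⟩)
        simpa [Subtype.ext_iff] using this
      · match i with
        | Sum.inl Q =>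
          have := h0.2 1 Q (fun _ => (a.1.1, a.2.1)) fun _ => Or.inl ⟨a, ha, rfl⟩
          have e1 : (fun _ : Fin 1 => a.1.1) = ![a.1.1] := by
            funext i
            match i with
            | 0 => rfl
          have e2 : (fun _ : Fin 1 => a.2.1) = ![a.2.1] := by
            funext i
            match i with
            | 0 => rfl
          show S.RelMap Q ![a.1.1] ↔ S.RelMap Q ![a.2.1]
          rw [← e1, ← e2]
          exact this
        | Sum.inr (Sum.inl Q) =>
          exact relT_of_atEq h0 (Or.inl ⟨a, ha, rfl⟩) (Or.inl ⟨a, ha, rfl⟩) Q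
        | Sum.inr (Sum.inr (Sum.inl Q)) => exact relT_of_atEq h0 hc₀' (Or.inl ⟨a, ha, rfl⟩) Q
        | Sum.inr (Sum.inr (Sum.inr (Sum.inl Q))) =>
          exact relT_of_atEq h0 (Or.inl ⟨a, ha, rfl⟩) hc₀' Q
        | Sum.inr (Sum.inr (Sum.inr (Sum.inr j))) =>
          show Sat _ (θ.U j) _ ↔ Sat _ (θ.U j) _
          refine sat_of_bfr (θ.U j) (hγU j) hq _ _ fun i => ?_
          refine Fin.lastCases ?_ (fun i => ?_) i
          · rw [Fin.snoc_last, Fin.snoc_last]
            exact hai a ha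
          · rw [Fin.snoc_castSucc, Fin.snoc_castSucc]
            exact hci i
      · show Sat _ (θ.D j) _ ↔ Sat _ (θ.D j) _
        refine sat_of_bfr (θ.D j) (hγD j) hq _ _ fun i => ?_
        refine Fin.lastCases ?_ (fun i => ?_) i
        · rw [Fin.snoc_last, Fin.snoc_last]
          exact hai b hb
        · rw [Fin.snoc_castSucc, Fin.snoc_castSucc]
          refine Fin.lastCases ?_ (fun i => ?_) i
          · rw [Fin.snoc_last, Fin.snoc_last]
            exact hai a ha
          · rw [Fin.snoc_castSucc, Fin.snoc_castSucc]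
            exact hci i
    · intro p hpf hp G hG
      have h1 := hdown p hp
      obtain ⟨-, h2, -⟩ := (hS3 p).mp hp
      have hone : ∀ d ∈ (fun a : X × X => (a.1.1, a.2.1)) '' p ∪ dg G, AtEq S S {d} := by
        rintro d (hd | ⟨g, hg, rfl⟩)
        · exact AtEq.anti (by rintro e rfl; exact hd) h1
        · exact atEq_refl S (by rintro e rfl; rfl)
      have hGX : ∀ g ∈ G, g ∉ X := by
        intro g hg
        have := hG g hg
        rwa [Subtype.range_val] at this
      have hcr : ∀ a ∈ p, ∀ g ∈ G, bt S a.1.1 g = bt S a.2.1 g := fun a ha g hg =>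
        hout _ a.1.2 _ a.2.2 (fun Q => h2 a ha (Sum.inr (Sum.inr (Sum.inl Q))))
          (fun Q => h2 a ha (Sum.inr (Sum.inr (Sum.inr (Sum.inl Q))))) g (hGX g hg)
      refine atEq_of_pairs hL fun a ha b hb => ?_
      rcases ha with ⟨a, ha, rfl⟩ | ⟨g, hg, rfl⟩ <;> rcases hb with ⟨b, hb, rfl⟩ | ⟨g', hg', rfl⟩
      · refine AtEq.anti ?_ h1
        rintro d (rfl | rfl)
        · exact ⟨a, ha, rfl⟩
        · exact ⟨b, hb, rfl⟩
      · refine atEq_pair hL (hone _ (Or.inl ⟨a, ha, rfl⟩)) (hone _ (Or.inr ⟨g', hg', rfl⟩)) ?_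
          (hcr a ha g' hg')
        exact ⟨fun (h' : a.1.1 = g') => absurd (h' ▸ a.1.2) (hGX g' hg'),
          fun (h' : a.2.1 = g') => absurd (h' ▸ a.2.2) (hGX g' hg')⟩
      · refine atEq_pair hL (hone _ (Or.inr ⟨g, hg, rfl⟩)) (hone _ (Or.inl ⟨b, hb, rfl⟩)) ?_
          (bt_swap (hcr b hb g hg))
        exact ⟨fun (h' : g = b.1.1) => absurd (h' ▸ b.1.2) (hGX g hg),
          fun (h' : g = b.2.1) => absurd (h' ▸ b.2.2) (hGX g hg)⟩
      · refine atEq_refl S ?_
        rintro d (rfl | rfl) <;> rfl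
  obtain ⟨K', δ', hV'⟩ := hV
  have htt : TT S3 univ := by
    refine hPM LT X S3 K' δ' lt_ar2 hV' (none : Option ℕ) ?_ ?_ ?_ ?_ ?_
    · exact fun x => hc.refl (ι x)
    · exact fun x y h1 h2 => hι (hc.anti (ι x) (ι y) h1 h2)
    · exact fun x y z h1 h2 => hc.trans (ι x) (ι y) (ι z) h1 h2
    · exact fun x y => hc.total (ι x) (ι y)
    · intro Q
      match Q with
      | none =>
        exact (hc.mono 0).imp (fun h x' x y y' h1 h2 h3 => h _ _ _ _ h1 h2 h3)
          fun h x' x y y' h1 h2 h3 => h _ _ _ _ h1 h2 h3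
      | some j =>
        exact (hc.mono j).imp (fun h x' x y y' h1 h2 h3 => h _ _ _ _ h1 h2 h3)
          fun h x' x y y' h1 h2 h3 => h _ _ _ _ h1 h2 h3
  have htm : TameX S3 univ := htt.tameX MON.dfb_univ
  refine htm.reduct fun p _ _ hp => ?_
  obtain ⟨-, h2, -⟩ := (hS3 p).mp hp
  rw [atEq_expS hL]
  refine ⟨(atEq_pl Subtype.val_injective).mpr (hdown p hp), fun a ha Q => ?_, fun a ha Q => ?_,
    fun _ _ _ _ => Iff.rfl⟩
  · exact h2 a ha (Sum.inr (Sum.inr (Sum.inl Q)))
  · exact h2 a ha (Sum.inr (Sum.inr (Sum.inr (Sum.inl Q))))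

end

end Pool.Agent.MOQ
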