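import Pool.Agent.MOQ.SAT
import Pool.Agent.MON.PMd

/-!
# Large structures with increasing and decreasing relations: the statement
-/

set_option autoImplicit false
set_option linter.unusedSectionVars false
set_option linter.unusedVariables false

namespace Pool.Agent.MOQ

open Set Pool.Agent.Helper5 Pool.Agent.Helper5.DU Pool.Agent.Helper6.Str
  Pool.Agent.Helper79.VC Pool.Agent.Helper97.VC Pool.Agent.Helper97.MD Pool.Agent.Helper6.VC
  Pool.Agent.Helper97.LO Pool.Agent.MOP

/-- **A large structure with a linear order whose relations are increasing or decreasing is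
tame.** -/
theorem pmStatement : PMStatement := by
  intro L _ _ M S K δ hL hS le hr ha ht hto hc
  refine MON.tt_of_convPM hL hS le hr ha ht hto fun Q => ?_
  rcases hc Q with h | h
  · exact Or.inl (MON.PM.convMono_of hr hto h)
  · exact Or.inr (MON.convAnti_of hr hto fun x' x y y' h1 h2 h3 => h x' x y' y h1 h2 h3)

end Pool.Agent.MOQ
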