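import Pool.Agent.MOQ.Defs
import Pool.Agent.VB.Q

/-!
# Schemes and injections
-/

set_option autoImplicit false
set_option linter.unusedSectionVars false
set_option linter.unusedVariables false

namespace Pool.Agent.MOQ

open Set Pool.Agent.Helper5 Pool.Agent.Helper5.DU Pool.Agent.Helper6.Str
  Pool.Agent.Helper79.VC Pool.Agent.Helper97.VC Pool.Agent.Helper97.MD Pool.Agent.Helper6.VC
  Pool.Agent.Helper97.LO Pool.Agent.MOP

variable {L : FirstOrder.Language.{0, 0}} {M N P : Type}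

/-- transfer along an injection -/
theorem LinOver.comap {R : Type} {τ : M → M → Set R × Set R} {τ' : N → N → Set R × Set R}
    {e : N → M} (he : Function.Injective e) (h : ∀ x y, x ≠ y → τ' x y = τ (e x) (e y))
    {P : Set N} {θ : Sch R} (hM : LinOver τ θ (e '' P)) : LinOver τ' θ P := by
  obtain ⟨c, hc⟩ := hM
  choose d hd hdc using fun i => (c i).2
  have hQ : ∀ x, x ∈ P → e x ∈ e '' P := fun x hx => ⟨x, hx, rfl⟩
  have hQ' : ∀ y ∈ e '' P, ∃ x ∈ P, e x = y := fun y hy => hy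
  let c' : Fin θ.n → P := fun i => ⟨d i, hd i⟩
  let f : P → (e '' P : Set M) := fun x => ⟨e x, hQ _ x.2⟩
  have hfc : f ∘ c' = c := by
    funext i
    exact Subtype.ext (hdc i)
  have hr : ∀ j x y, θ.rel τ' P c' j x y ↔ θ.rel τ (e '' P) c j (f x) (f y) := by
    intro j x y
    unfold Sch.rel
    rw [sat_offd he h hQ hQ']
    have e1 : (fun i => (⟨e ((Fin.snoc (Fin.snoc c' x : Fin (θ.n + 1) → P) y :
        Fin (θ.n + 1 + 1) → P) i), hQ _ (Subtype.prop _)⟩ : (e '' P : Set M))) =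
        (Fin.snoc (Fin.snoc c (f x) : Fin (θ.n + 1) → (e '' P : Set M)) (f y) :
        Fin (θ.n + 1 + 1) → (e '' P : Set M)) := by
      show f ∘ _ = _
      rw [Fin.comp_snoc, Fin.comp_snoc, hfc]
    rw [e1]
  have hu : ∀ j x, θ.un τ' P c' j x ↔ θ.un τ (e '' P) c j (f x) := by
    intro j x
    unfold Sch.un
    rw [sat_offd he h hQ hQ']
    have e1 : (fun i => (⟨e ((Fin.snoc c' x : Fin (θ.n + 1) → P) i),
        hQ _ (Subtype.prop _)⟩ : (e '' P : Set M))) =
        (Fin.snoc c (f x) : Fin (θ.n + 1) → (e '' P : Set M)) := by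
      show f ∘ _ = _
      rw [Fin.comp_snoc, hfc]
    rw [e1]
  have hfi : Function.Injective f := fun x y hxy => Subtype.ext (he (congrArg Subtype.val hxy))
  refine ⟨c', ?_, ?_, ?_, ?_, ?_, ?_⟩
  · exact fun x => (hr _ _ _).mpr (hc.refl _)
  · exact fun x y h1 h2 => hfi (hc.anti _ _ ((hr _ _ _).mp h1) ((hr _ _ _).mp h2))
  · exact fun x y z h1 h2 => (hr _ _ _).mpr (hc.trans _ _ _ ((hr _ _ _).mp h1) ((hr _ _ _).mp h2))
  · exact fun x y => (hc.total (f x) (f y)).imp (hr _ _ _).mpr (hr _ _ _).mpr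
  · intro j
    rcases hc.mono j with h0 | h0
    · exact Or.inl fun x' x y y' h1 h2 h3 => (hr _ _ _).mpr (h0 _ _ _ _ ((hr _ _ _).mp h1)
        ((hr _ _ _).mp h2) ((hr _ _ _).mp h3))
    · exact Or.inr fun x' x y y' h1 h2 h3 => (hr _ _ _).mpr (h0 _ _ _ _ ((hr _ _ _).mp h1)
        ((hr _ _ _).mp h2) ((hr _ _ _).mp h3))
  · intro x y x' y' h1 h2 h3 h4 h5 h6
    have h7 := hc.det (f x) (f y) (f x') (f y') (fun h => h1 (hfi h)) (fun h => h2 (hfi h))
      (fun j => by rw [← hu, ← hu]; exact h3 j) (fun j => by rw [← hu, ← hu]; exact h4 j)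
      (fun j => by rw [← hr, ← hr]; exact h5 j) (fun j => by rw [← hr, ← hr]; exact h6 j)
    rw [h _ _ fun h => h1 (Subtype.ext h), h _ _ fun h => h2 (Subtype.ext h)]
    exact h7

/-- monotone parts in the sense of `MonOver` -/
theorem LinOver.of_mon {R : Type} {τ : M → M → Set R × Set R} {P : Set M} {θ : Sch R}
    (h : MonOver τ θ P) : LinOver τ θ P := by
  obtain ⟨c, hc⟩ := h
  exact ⟨c, hc.refl, hc.anti, hc.trans, hc.total, fun j => Or.inl (hc.mono j), hc.det⟩

/-- the relations `D j` for `θ` are binary relations symbols of a structure with all relations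
increasing or decreasing: the statement on large structures -/
def PMStatement : Prop :=
  ∀ (L : FirstOrder.Language.{0, 0}) [∀ n, IsEmpty (L.Functions n)]
    [∀ n, Countable (L.Relations n)] (M : Type) (S : L.Structure M) (K : Set (L.Structure ℕ))
    (δ : Ordinal.{0}), Ar2 L → VSt K δ S → ∀ le : L.Relations 2,
    (∀ x, S.RelMap le ![x, x]) →
    (∀ x y, S.RelMap le ![x, y] → S.RelMap le ![y, x] → x = y) →
    (∀ x y z, S.RelMap le ![x, y] → S.RelMap le ![y, z] → S.RelMap le ![x, z]) →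
    (∀ x y, S.RelMap le ![x, y] ∨ S.RelMap le ![y, x]) →
    (∀ Q : L.Relations 2,
      Inc (fun x y => S.RelMap le ![x, y]) (fun x y => S.RelMap Q ![x, y]) ∨
      Dec (fun x y => S.RelMap le ![x, y]) (fun x y => S.RelMap Q ![x, y])) →
    TT S univ

end Pool.Agent.MOQ
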