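import Pool.Agent.MOQ.PMT
import Pool.Agent.VCw.GE
import Pool.Agent.VCw.CMPc
import Pool.Agent.VB.G

/-!
# The tree of modules

The arguments of `Pool.Agent.Helper97.VCM.Tree3` to `Tree6` (helper97) for structures whose
infinite primitive subsets are sparse, of finite clique-width, or linear orders with increasing and
decreasing relations.
-/

set_option autoImplicit false
set_option linter.unusedSectionVars false
set_option linter.unusedVariables false

namespace Pool.Agent.Helper97.LO.TR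

open Pool.Agent.MOP Pool.Agent.MOQ

open Set Pool.Agent.Helper5.DU Pool.Agent.Helper6.Str Pool.Agent.Helper79.VC
  Pool.Agent.Helper97.VC Pool.Agent.Helper97.MD

variable {L : FirstOrder.Language.{0, 0}} {M N P : Type}

/-- the condition on primitive subsets for labellings with values in pairs of sets -/
private def TRXq_T {R : Type} (Θ : ℕ → Sch R) (τ : M → M → Set R × Set R) : Prop :=
  ∀ P : Set M, P.Infinite → IsPrim τ P → (∃ b : Set R, ∀ G : SimpleGraph M,
    (∀ x y, G.Adj x y → x ≠ y ∧ x ∈ P ∧ y ∈ P ∧ τ x y ≠ (b, b)) → ¬ HasTK G) ∨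
    (∃ k, FinCW τ P k) ∨ ∃ t, LinOver τ (Θ t) P

private theorem TRXq_iff {Θ : ℕ → Sch (L.Relations 2)} {S : L.Structure M} :
    PrimParts Θ S ↔ TRXq_T Θ (bt S) := by
  constructor
  · intro h P hP hp
    rcases h P hP hp with ⟨b, hb⟩ | hk
    · refine Or.inl ⟨b, fun G hG hTK => hb ?_⟩
      exact hasTK_map (f := id) Function.injective_id (fun x y hxy => hG x y hxy) hTK
    · exact Or.inr hk
  · intro h P hP hp
    rcases h P hP hp with ⟨b, hb⟩ | hk
    · exact Or.inl ⟨b, hb _ fun x y hxy => hxy⟩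
    · exact Or.inr hk

private theorem TRXq_of_inj {M' R : Type} {Θ : ℕ → Sch R} {τ : M → M → Set R × Set R}
    {τ' : M' → M' → Set R × Set R} (hτ : TRXq_T Θ τ) {e : M' → M}
    (he : Function.Injective e) (h : ∀ x y, x ≠ y → τ' x y = τ (e x) (e y)) :
    TRXq_T Θ τ' := by
  intro P hP hp
  rcases hτ (e '' P) (hP.image he.injOn) (isPrim_image he h hp) with ⟨b, hb⟩ | ⟨k, hk⟩ | ⟨t, ht⟩
  · refine Or.inl ⟨b, fun G hG hTK => ?_⟩
    let G' : SimpleGraph M :=
      { Adj := fun x y => ∃ u v, G.Adj u v ∧ e u = x ∧ e v = y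
        symm := ⟨fun x y ⟨u, v, h1, h2, h3⟩ => ⟨v, u, h1.symm, h3, h2⟩⟩
        loopless := ⟨fun x ⟨u, v, h1, h2, h3⟩ => h1.ne (he (h2.trans h3.symm))⟩ }
    refine hb G' ?_ (hasTK_map (f := e) he (fun x y hxy => ?_) hTK)
    · intro x y hxy
      obtain ⟨u, v, huv, rfl, rfl⟩ := hxy
      obtain ⟨h1, h2, h3, h4⟩ := hG u v huv
      refine ⟨fun h' => h1 (he h'), ⟨u, h2, rfl⟩, ⟨v, h3, rfl⟩, ?_⟩
      rw [h u v h1] at h4
      exact h4
    · exact ⟨x, y, hxy, rfl, rfl⟩
  · exact Or.inr (Or.inl ⟨k, FinCW.comap id he h hk⟩)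
  · exact Or.inr (Or.inr ⟨t, LinOver.comap he h ht⟩)

section

variable [∀ n, IsEmpty (L.Functions n)] [∀ n, Countable (L.Relations n)]
  {K : Set (L.Structure ℕ)} {δ : Ordinal.{0}} {S : L.Structure M}

private theorem TRXq_pl {Θ : ℕ → Sch (L.Relations 2)} (h : PrimParts Θ S) {e : N → M}
    (he : Function.Injective e) : PrimParts Θ (Pool.Agent.Helper79.VC.pl S e) := by
  rw [TRXq_iff] at h ⊢
  exact TRXq_of_inj h he fun x y _ => bt_pl S e x y

/-- the quotient by the maximal tame strong modules, with its binary types -/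
private theorem TRXq_quotient (hL : Ar2 L) (hS : VSt K δ S) {ρ₀ : Ordinal.{0}} (hρ₀ : ρ₀ < om1)
    (hA : ∀ u v, TN S u v → SL S (MD.node (bt S) u v) ρ₀) 
    (hnt : ¬ TameX S univ) :
    ∃ (M' : Type) (S' : (quoL L).Structure M') (K' : Set ((quoL L).Structure ℕ))
      (δ' : Ordinal.{0}), VSt K' δ' S' ∧ (∃ e : M' → M, Function.Injective e ∧
        ∀ a b, a ≠ b → (bt (L := quoL L) S' a b : Set (L.Relations 2) × Set (L.Relations 2)) =
          bt S (e a) (e b)) ∧ ¬ TameX S' univ ∧
        ∀ a b, a ≠ b → ¬ TN S' a b := by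
  classical
  have hη : om2 + (ρ₀ + Ordinal.omega0) < om1 :=
    add_lt_om1 om2_lt (add_lt_om1 hρ₀ omega_lt_om1)
  obtain ⟨κ, hκ⟩ := pcl_def hL hS (tn_equiv hL S) (crossRule_tn hL S) (class_tame hL hS) hη
    (fun x y x' y' h => tn_congr hS hρ₀ hA h)
  let s : Setoid M := ⟨TN S, tn_equiv hL S⟩
  let M' : Type := Quotient s
  let π : M → M' := fun x => Quotient.mk s x
  have hπe : ∀ x y, π x = π y ↔ TN S x y := fun x y => Quotient.eq
  let out : M' → M := fun a => a.out
  have hout : ∀ a, π (out a) = a := fun a => Quotient.out_eq a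
  let Cl : M' → Set M := fun a => {z | π z = a}
  have hCl : ∀ x, {z | TN S x z} = Cl (π x) := by
    intro x
    ext z
    exact ((hπe z x).trans ⟨TN.symm, TN.symm⟩).symm
  have hκ' : ∀ x y, κ x = κ y → BFI S S (Cl (π x)) (Cl (π y)) ∅ := by
    intro x y hxy
    have := hκ x y hxy
    rw [hCl, hCl] at this
    exact this
  -- colours
  let col : M' → ℕ := fun a => sInf {n | ∃ y, κ y = n ∧ BFI S S (Cl a) (Cl (π y)) ∅}
  have hcol0 : ∀ a, ∃ y, κ y = col a ∧ BFI S S (Cl a) (Cl (π y)) ∅ := by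
    intro a
    have hne : {n | ∃ y, κ y = n ∧ BFI S S (Cl a) (Cl (π y)) ∅}.Nonempty :=
      ⟨κ (out a), out a, rfl, by rw [hout]; exact bfi_refl⟩
    exact Nat.sInf_mem hne
  have hcol : ∀ a b, col a = col b ↔ BFI S S (Cl a) (Cl b) ∅ := by
    intro a b
    constructor
    · intro h
      obtain ⟨y, hy1, hy2⟩ := hcol0 a
      obtain ⟨z, hz1, hz2⟩ := hcol0 b
      exact bfi_trans hy2 (bfi_trans (hκ' y z (by rw [hy1, hz1, h])) (bfi_symm hz2))
    · intro h
      have : {n | ∃ y, κ y = n ∧ BFI S S (Cl a) (Cl (π y)) ∅} =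
          {n | ∃ y, κ y = n ∧ BFI S S (Cl b) (Cl (π y)) ∅} := by
        ext n
        constructor
        · rintro ⟨y, hy1, hy2⟩
          exact ⟨y, hy1, bfi_trans (bfi_symm h) hy2⟩
        · rintro ⟨y, hy1, hy2⟩
          exact ⟨y, hy1, bfi_trans h hy2⟩
      show sInf _ = sInf _
      rw [this]
  let bin : L.Relations 2 → M' → M' → Prop := fun R a b => a ≠ b ∧ S.RelMap R ![out a, out b]
  let S' : (quoL L).Structure M' := quoS bin col
  -- cross facts
  have hm : ∀ z x x', π x = π x' → π z ≠ π x → bt S z x = bt S z x' := by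
    intro z x x' hxx hzx
    refine module_bt (isStrong_class hL S x).1 (z := z) ?_ (tn_refl S x) ((hπe x x').mp hxx)
    intro h
    exact hzx ((hπe z x).mpr (TN.symm h))
  have hbt : ∀ x y, π x ≠ π y → bt S x y = bt S (out (π x)) (out (π y)) := by
    intro x y hxy
    have h1 : bt S x y = bt S x (out (π y)) := hm x y _ (hout _).symm hxy
    have h2 : bt S (out (π y)) x = bt S (out (π y)) (out (π x)) :=
      hm _ x _ (hout _).symm (by rw [hout]; exact hxy.symm)
    exact h1.trans (bt_swap h2)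
  have hbt' : ∀ a b : M', a ≠ b → bt S' a b = bt S (out a) (out b) := by
    intro a b hab
    refine Prod.ext (Set.ext fun R => ?_) (Set.ext fun R => ?_)
    · show (a ≠ b ∧ S.RelMap R ![out a, out b]) ↔ S.RelMap R ![out a, out b]
      exact ⟨fun h => h.2, fun h => ⟨hab, h⟩⟩
    · show (b ≠ a ∧ S.RelMap R ![out b, out a]) ↔ S.RelMap R ![out b, out a]
      exact ⟨fun h => h.2, fun h => ⟨hab.symm, h⟩⟩
  have hH : ∀ p : Set (M' × M'), p.Finite → (AtEq S' S' p ↔
      (∀ a ∈ p, ∀ b ∈ p, a.1 = b.1 ↔ a.2 = b.2) ∧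
      (∀ a ∈ p, BFI S S {z | π z = a.1} {z | π z = a.2} ∅) ∧
      (∀ x y x' y', (π x, π x') ∈ p → (π y, π y') ∈ p → π x ≠ π y → bt S x y = bt S x' y')) := by
    intro p _
    show AtEq (quoS bin col) (quoS bin col) p ↔ _
    rw [atEq_quoS]
    refine and_congr_right fun hinj => and_congr ?_ ?_
    · exact forall₂_congr fun a _ => hcol a.1 a.2
    · constructor
      · intro h x y x' y' hx hy hxy
        have hxy' : π x' ≠ π y' := fun h' => hxy ((hinj _ hx _ hy).mpr h')
        rw [hbt x y hxy, hbt x' y' hxy']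
        refine bt_ext (fun R => ?_) (fun R => ?_)
        · have := h _ hx _ hy R
          constructor
          · intro h1
            exact (this.mp ⟨hxy, h1⟩).2
          · intro h1
            exact (this.mpr ⟨hxy', h1⟩).2
        · have := h _ hy _ hx R
          constructor
          · intro h1
            exact (this.mp ⟨hxy.symm, h1⟩).2
          · intro h1
            exact (this.mpr ⟨hxy'.symm, h1⟩).2
      · intro h a ha b hb R
        by_cases hab : a.1 = b.1
        · have hab' := (hinj a ha b hb).mp hab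
          exact ⟨fun h1 => absurd hab h1.1, fun h1 => absurd hab' h1.1⟩
        · have hab' : a.2 ≠ b.2 := fun h' => hab ((hinj a ha b hb).mpr h')
          have h1 := h (out a.1) (out b.1) (out a.2) (out b.2)
            (by rw [hout, hout]; exact ha) (by rw [hout, hout]; exact hb)
            (by rw [hout, hout]; exact hab)
          have h2 : S.RelMap R ![out a.1, out b.1] ↔ S.RelMap R ![out a.2, out b.2] :=
            Set.ext_iff.mp (congrArg Prod.fst h1) R
          exact ⟨fun h3 => ⟨hab', h2.mp h3.2⟩, fun h3 => ⟨hab, h2.mpr h3.2⟩⟩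
  have ht : ∀ x, TameX S {y | π y = π x} := by
    intro x
    have := class_tame hL hS x
    have h1 : {y | TameX S (MD.node (bt S) x y)} = {y | π y = π x} := hCl x
    rwa [h1] at this
  have hnt' : ¬ TameX S' univ := by
    intro h
    have := tameX_of_quot hL π hm ht (fun p hp h => (hH p hp).mp h) h
    refine hnt ?_
    have h1 : {z | π z ∈ (univ : Set M')} = univ := eq_univ_of_forall fun z => mem_univ _
    rwa [h1] at this
  have hinf : Infinite M' := by
    by_contra hcon
    rw [not_infinite_iff_finite] at hcon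
    exact hnt' (tameX_of_countable (Set.toFinite univ).countable)
  have hπs : Function.Surjective π := fun a => ⟨out a, hout a⟩
  obtain ⟨K', δ', hV⟩ := hS.quot hL (S' := S') π hπs hη
    (fun x y x' y' h => by
      rw [hπe, hπe]
      exact tn_congr hS hρ₀ hA h) hm ht ⟨κ, hκ'⟩ hH
  refine ⟨M', S', K', δ', hV, ?_, hnt', ?_⟩
  · exact ⟨out, fun a b hab => by rw [← hout a, ← hout b, hab], fun a b hab => hbt' a b hab⟩
  · intro a b hab hT
    have hZ := tameX_of_quot hL π hm ht (fun p hp h => (hH p hp).mp h) hT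
    set X' := MD.node (bt S') a b with hX'
    have hX's : IsStrong (bt S') X' := isStrong_node a b
    have hstr : IsStrong (bt S) {z | π z ∈ X'} := by
      refine ⟨fun z hz x hx x' hx' => ?_, fun Y hY hne => ?_⟩
      · have hz' : π z ∉ X' := hz
        have h1 : π z ≠ π x := fun h => hz' (by rw [h]; exact hx)
        have h2 : π z ≠ π x' := fun h => hz' (by rw [h]; exact hx')
        rw [hbt z x h1, hbt z x' h2, ← hbt' _ _ h1, ← hbt' _ _ h2]
        exact hX's.1 _ hz' _ hx _ hx'
      · obtain ⟨y0, hy0, hy0Y⟩ := hne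
        by_cases hsub : ∀ y ∈ Y, TN S y0 y
        · right
          intro y hy
          have : π y = π y0 := (hπe y y0).mpr (TN.symm (hsub y hy))
          show π y ∈ X'
          rw [this]
          exact hy0
        · push Not at hsub
          obtain ⟨y1, hy1, hy1'⟩ := hsub
          have hcl : ∀ y ∈ Y, ∀ z, TN S y z → z ∈ Y := by
            intro y hy z hz
            rcases (isStrong_class hL S y).2 Y hY ⟨y, tn_refl S y, hy⟩ with h | h
            · exact h hz
            · exact absurd (TN.trans hL (TN.symm (h hy0Y)) (h hy1)) hy1'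
          have hYm : IsModule (bt S') (π '' Y) := by
            rintro c hc _ ⟨x, hx, rfl⟩ _ ⟨x', hx', rfl⟩
            have hcY : out c ∉ Y := fun h => hc ⟨out c, h, hout c⟩
            have h1 : c ≠ π x := fun h => hc ⟨x, hx, h.symm⟩
            have h2 : c ≠ π x' := fun h => hc ⟨x', hx', h.symm⟩
            rw [hbt' _ _ h1, hbt' _ _ h2]
            refine hY (out c) hcY _ (hcl x hx _ ?_) _ (hcl x' hx' _ ?_)
            · exact (hπe _ _).mp (hout _).symm
            · exact (hπe _ _).mp (hout _).symm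
          rcases hX's.2 _ hYm ⟨π y0, hy0, ⟨y0, hy0Y, rfl⟩⟩ with h | h
          · left
            intro z hz
            obtain ⟨y, hy, hyz⟩ := h hz
            exact hcl y hy z ((hπe y z).mp hyz)
          · right
            intro y hy
            exact h ⟨y, hy, rfl⟩
    have hxa : out a ∈ {z | π z ∈ X'} := by
      show π (out a) ∈ X'
      rw [hout]
      exact left_mem_node a b
    have hxb : out b ∈ {z | π z ∈ X'} := by
      show π (out b) ∈ X'
      rw [hout]
      exact right_mem_node a b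
    have h3 : TN S (out a) (out b) := TameX.node hL (nconv_of_strong hstr) hxa hxb hZ
    have h4 := (hπe _ _).mpr h3
    rw [hout, hout] at h4
    exact hab h4

/-- **The classes of the chain preorder are tame.** -/
private theorem TRXq_chain_class_tame (hPM : PMStatement) (hL : Ar2 L) (hS : VSt K δ S)
    {Θ : ℕ → Sch (L.Relations 2)} (hsp : PrimParts Θ S) (hM : Meets S)
    (y : M) : TameX (chainExp S) {z | cle S z y ∧ cle S y z} := by
  classical
  set X : Set M := {z | cle S z y ∧ cle S y z} with hX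
  by_cases hXc : X.Countable
  · exact tameX_of_countable hXc
  have hXinf : X.Infinite := fun h => hXc h.countable
  have hyX : y ∈ X := ⟨fun _ _ _ h => h, fun _ _ _ h => h⟩
  obtain ⟨z, hzX, hzy⟩ : ∃ z ∈ X, z ≠ y := by
    by_contra hcon
    push Not at hcon
    exact hXinf ((finite_singleton y).subset fun z hz => hcon z hz)
  set Q := MD.node (bt S) y z with hQ
  have hyz : y ≠ z := hzy.symm
  have hQs : IsStrong (bt S) Q := isStrong_node y z
  have hyQ : y ∈ Q := left_mem_node y z
  have hzQ : z ∈ Q := right_mem_node y z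
  have hXQ : X ⊆ Q := fun w hw => hw.1 y z hyz hyQ
  -- nodes containing an element of `X`
  have hbig : ∀ w ∈ X, ∀ u v, u ≠ v → w ∈ MD.node (bt S) u v → Q ⊆ MD.node (bt S) u v := by
    intro w hw u v huv hwn
    have h1 : y ∈ MD.node (bt S) u v := hw.2 u v huv hwn
    exact node_subset (isStrong_node u v) h1 (hzX.1 u v huv h1)
  have hQle : ∀ w ∈ Q, cle S w y := fun w hw u v huv h => hbig y hyX u v huv h hw
  have hXX : ∀ u ∈ X, ∀ v ∈ Q, u ≠ v → MD.node (bt S) u v = Q := by
    intro u hu v hv huv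
    apply Subset.antisymm
    · exact node_subset hQs (hXQ hu) hv
    · exact hbig u hu u v huv (left_mem_node u v)
  have hCC : ∀ c ∈ Q, c ∉ X → ∀ c' ∈ Q, c' ∉ X → ∀ x ∈ X, x ∉ MD.node (bt S) c c' := by
    intro c hc hcX c' hc' hcX' x hx hxn
    have h1 : ∀ c ∈ Q, c ∉ X → ∃ u v, u ≠ v ∧ c ∈ MD.node (bt S) u v ∧
        y ∉ MD.node (bt S) u v := by
      intro c hc hcX
      by_contra hcon
      push Not at hcon
      exact hcX ⟨hQle c hc, fun u v huv h => hcon u v huv h⟩
    obtain ⟨u, v, huv, hcu, hyu⟩ := h1 c hc hcX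
    obtain ⟨u', v', huv', hcu', hyu'⟩ := h1 c' hc' hcX'
    rcases hM.total huv huv' with h3 | h3
    · have h4 : x ∈ MD.node (bt S) u' v' :=
        node_subset (isStrong_node u' v') (h3 hcu) hcu' hxn
      exact hyu' (hbig x hx u' v' huv' h4 hyQ)
    · have h4 : x ∈ MD.node (bt S) u v :=
        node_subset (isStrong_node u v) hcu (h3 hcu') hxn
      exact hyu (hbig x hx u v huv h4 hyQ)
  -- the base point
  obtain ⟨c₀, hc₀⟩ : ∃ c₀ : M, (∃ c ∈ Q, c ∉ X) → c₀ ∈ Q ∧ c₀ ∉ X := by
    by_cases h : ∃ c ∈ Q, c ∉ X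
    · obtain ⟨c, hc⟩ := h
      exact ⟨c, fun _ => hc⟩
    · exact ⟨y, fun h' => absurd h' h⟩
  have hbtC : ∀ g ∈ Q, g ∉ X → ∀ x ∈ X, bt S x g = bt S x c₀ := by
    intro g hg hgX x hx
    obtain ⟨h1, h2⟩ := hc₀ ⟨g, hg, hgX⟩
    exact module_bt (isStrong_node g c₀).1 (hCC g hg hgX c₀ h1 h2 x hx) (left_mem_node g c₀)
      (right_mem_node g c₀)
  have hinfX : Infinite X := hXinf.to_subtype
  let E : (X → X → Prop) → (expL L).Structure X := fun le =>
    expS (pl S (Subtype.val : X → M)) (fun R x => S.RelMap R ![c₀, x.1])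
      (fun R x => S.RelMap R ![x.1, c₀]) le
  have hη : om2 + om2 < om1 := add_lt_om1 om2_lt om2_lt
  have h2η : om2 + 2 ≤ om2 + om2 := by
    gcongr
    exact_mod_cast (nat_lt_om2 2).le
  -- the expansions of `X`
  have hE1 : ∀ le : X → X → Prop, (∀ p : Set (X × X),
      AtEq S S ((fun a => (a.1.1, a.2.1)) '' p) → ∀ a ∈ p, ∀ b ∈ p, (le a.1 b.1 ↔ le a.2 b.2)) →
      ∃ (K' : Set ((expL L).Structure ℕ)) (δ' : Ordinal.{0}), VSt K' δ' (E le) := by
    intro le hle
    refine hS.interp (S' := E le) (e := Subtype.val) Subtype.val_injective {y, c₀} hη ?_ ?_ ?_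
    · intro c c' h
      rw [Subtype.range_val]
      have hyp : (y, y) ∈ insert (c, c') (dg (({y, c₀} : Finset M) : Set M)) :=
        mem_insert_of_mem _ ⟨y, by simp, rfl⟩
      have h' := h.mono h2η
      exact and_congr (cle_congr h' (mem_insert _ _) hyp) (cle_congr h' hyp (mem_insert _ _))
    · intro p hp h
      have h1 : AtEq S S ((fun a : X × X => (a.1.1, a.2.1)) '' p) :=
        AtEq.anti subset_union_left h.atEq
      have hcp : (c₀, c₀) ∈ (fun a : X × X => (a.1.1, a.2.1)) '' p ∪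
          dg (({y, c₀} : Finset M) : Set M) := Or.inr ⟨c₀, by simp, rfl⟩
      show AtEq (expS _ _ _ _) (expS _ _ _ _) p
      rw [atEq_expS hL]
      refine ⟨(atEq_pl Subtype.val_injective).mpr h1, fun a ha R => ?_, fun a ha R => ?_,
        hle p h1⟩
      · exact relT_of_atEq h.atEq hcp (Or.inl ⟨a, ha, rfl⟩) R
      · exact relT_of_atEq h.atEq (Or.inl ⟨a, ha, rfl⟩) hcp R
    · intro p hp h G hG
      have h0 := (atEq_expS hL).mp h
      obtain ⟨h1, h2, h3, -⟩ := h0
      rw [atEq_pl Subtype.val_injective] at h1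
      refine atEq_of_pairs hL fun a ha b hb => ?_
      have hone : ∀ c ∈ (fun a : X × X => (a.1.1, a.2.1)) '' p ∪ dg G, AtEq S S {c} := by
        rintro c (hc | ⟨g, hg, rfl⟩)
        · exact AtEq.anti (by rintro d rfl; exact hc) h1
        · exact atEq_refl S (by rintro d rfl; rfl)
      have hGX : ∀ g ∈ G, g ∉ X := by
        intro g hg
        have := hG g hg
        rwa [Subtype.range_val] at this
      have hcr : ∀ a ∈ p, ∀ g ∈ G, bt S a.1.1 g = bt S a.2.1 g := by
        intro a ha g hg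
        by_cases hgQ : g ∈ Q
        · rw [hbtC g hgQ (hGX g hg) _ a.1.2, hbtC g hgQ (hGX g hg) _ a.2.2]
          exact bt_ext (h3 a ha) (h2 a ha)
        · exact module_bt' hQs.1 hgQ (hXQ a.1.2) (hXQ a.2.2)
      rcases ha with ⟨a, ha, rfl⟩ | ⟨g, hg, rfl⟩ <;> rcases hb with ⟨b, hb, rfl⟩ | ⟨g', hg', rfl⟩
      · refine AtEq.anti ?_ h1
        rintro d (rfl | rfl)
        · exact ⟨a, ha, rfl⟩
        · exact ⟨b, hb, rfl⟩
      · refine atEq_pair hL (hone _ (Or.inl ⟨a, ha, rfl⟩)) (hone _ (Or.inr ⟨g', hg', rfl⟩)) ?_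
          (hcr a ha g' hg')
        exact ⟨fun (h' : a.1.1 = g') => absurd (h' ▸ a.1.2) (hGX g' hg'),
          fun (h' : a.2.1 = g') => absurd (h' ▸ a.2.2) (hGX g' hg')⟩
      · refine atEq_pair hL (hone _ (Or.inr ⟨g, hg, rfl⟩)) (hone _ (Or.inl ⟨b, hb, rfl⟩)) ?_
          (bt_swap (hcr b hb g hg))
        exact ⟨fun (h' : g = b.1.1) => absurd (h' ▸ b.1.2) (hGX g hg),
          fun (h' : g = b.2.1) => absurd (h' ▸ b.2.2) (hGX g hg)⟩
      · refine atEq_refl S ?_
        rintro d (rfl | rfl) <;> rfl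
  -- tameness of an expansion suffices
  have hlow : ∀ b ∈ X, ∀ a, clt S a b ↔ a ∈ Q ∧ a ∉ X := by
    intro b hb a
    constructor
    · rintro ⟨h1, h2⟩
      refine ⟨h1 y z hyz (hXQ hb), fun ha => h2 ?_⟩
      intro u v huv h3
      exact hb.1 u v huv (ha.2 u v huv h3)
    · rintro ⟨h1, h2⟩
      refine ⟨fun u v huv h3 => hQle a h1 u v huv (hb.2 u v huv h3), fun h3 => h2
        ⟨hQle a h1, fun u v huv h4 => hb.2 u v huv (h3 u v huv h4)⟩⟩
  have hE2 : ∀ le : X → X → Prop, TameX (E le) univ → TameX (chainExp S) X := by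
    intro le hT
    have hT' : TameX (pl (chainExp S) (Subtype.val : X → M)) univ := by
      refine hT.reduct fun p hp _ h => ?_
      obtain ⟨h1, h2, h3, -⟩ := (atEq_expS hL).mp h
      rw [atEq_pl Subtype.val_injective] at h1 ⊢
      unfold chainExp
      rw [atEq_expS hL]
      refine ⟨h1, ?_, ?_, ?_⟩
      · rintro _ ⟨a, ha, rfl⟩ R
        by_cases hC : ∃ c ∈ Q, c ∉ X
        · obtain ⟨hc1, hc2⟩ := hc₀ hC
          have e1 := chainExp_left hM ((hlow _ a.1.2 c₀).mpr ⟨hc1, hc2⟩) R
          have e2 := chainExp_left hM ((hlow _ a.2.2 c₀).mpr ⟨hc1, hc2⟩) R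
          exact e1.trans ((h2 a ha R).trans e2.symm)
        · constructor
          · rintro ⟨c, hc, -⟩
            exact absurd ⟨c, (hlow _ a.1.2 c).mp hc⟩ hC
          · rintro ⟨c, hc, -⟩
            exact absurd ⟨c, (hlow _ a.2.2 c).mp hc⟩ hC
      · rintro _ ⟨a, ha, rfl⟩ R
        by_cases hC : ∃ c ∈ Q, c ∉ X
        · obtain ⟨hc1, hc2⟩ := hc₀ hC
          have e1 := chainExp_right hM ((hlow _ a.1.2 c₀).mpr ⟨hc1, hc2⟩) R
          have e2 := chainExp_right hM ((hlow _ a.2.2 c₀).mpr ⟨hc1, hc2⟩) R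
          exact e1.trans ((h3 a ha R).trans e2.symm)
        · constructor
          · rintro ⟨c, hc, -⟩
            exact absurd ⟨c, (hlow _ a.1.2 c).mp hc⟩ hC
          · rintro ⟨c, hc, -⟩
            exact absurd ⟨c, (hlow _ a.2.2 c).mp hc⟩ hC
      · have hall : ∀ u ∈ X, ∀ v ∈ X, cle S u v := fun u hu v hv s t hst h =>
          hu.1 s t hst (hv.2 s t hst h)
        rintro _ ⟨a, ha, rfl⟩ _ ⟨b, hb, rfl⟩
        exact ⟨fun _ => hall _ a.2.2 _ b.2.2, fun _ => hall _ a.1.2 _ b.1.2⟩
    rw [tameX_pl Subtype.val_injective, image_univ, Subtype.range_val] at hT'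
    exact hT'
  -- the sparse case
  have hsparse : ∀ b : Set (L.Relations 2), ¬ HasTK (gr S X b) → TameX (chainExp S) X := by
    intro b hb
    refine hE2 (fun _ _ => True) ?_
    obtain ⟨K', δ', hV⟩ := hE1 (fun _ _ => True) (fun _ _ _ _ _ _ => Iff.rfl)
    let b' : Set (expR L 2) := {R | match R with
      | Sum.inl R => R ∈ b
      | Sum.inr _ => True}
    refine sp (ar2_expL (L := L)) hV b' fun hTK => hb ?_
    refine hasTK_map (f := Subtype.val) Subtype.val_injective (fun u v huv => ?_) hTK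
    obtain ⟨h1, -, -, h2⟩ := huv
    refine ⟨fun h => h1 (Subtype.ext h), u.2, v.2, fun h3 => h2 ?_⟩
    have h4 : ∀ R, S.RelMap R ![u.1, v.1] ↔ R ∈ b :=
      fun R => Set.ext_iff.mp (congrArg Prod.fst h3) R
    have h5 : ∀ R, S.RelMap R ![v.1, u.1] ↔ R ∈ b :=
      fun R => Set.ext_iff.mp (congrArg Prod.snd h3) R
    have key : ∀ u v : X, (∀ R, S.RelMap R ![u.1, v.1] ↔ R ∈ b) →
        ∀ R : expR L 2, (E fun _ _ => True).RelMap (n := 2) R ![u, v] ↔ R ∈ b' := by
      intro u v huv R
      match R with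
      | Sum.inl R =>
        have e1 : (fun i => (![u, v] i).1) = ![u.1, v.1] := by
          funext i; fin_cases i <;> rfl
        show S.RelMap R (fun i => (![u, v] i).1) ↔ R ∈ b
        rw [e1]
        exact huv R
      | Sum.inr _ => exact Iff.rfl
    exact Prod.ext (Set.ext (key u v h4)) (Set.ext (key v u h5))
  -- the case of finite clique-width
  have hlinear : ∀ k : ℕ, FinCW (bt S) X k → TameX (chainExp S) X := by
    intro k hk
    refine hE2 (fun _ _ => True) ?_
    obtain ⟨K', δ', hV⟩ := hE1 (fun _ _ => True) (fun _ _ _ _ _ _ => Iff.rfl)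
    let ex : Set (L.Relations 2) → Set (expR L 2) := fun b => {R | match R with
      | Sum.inl R => R ∈ b
      | Sum.inr _ => True}
    refine tameX_of_finCW (ar2_expL (L := L)) hV (k := k) ?_
    refine FinCW.comap (τ := bt S) (fun t => (ex t.1, ex t.2)) Subtype.val_injective
      (fun u v _ => ?_) (FinCW.mono hk ?_)
    · have key : ∀ u v : X, ∀ R : expR L 2,
          (E fun _ _ => True).RelMap (n := 2) R ![u, v] ↔ R ∈ ex {R | S.RelMap R ![u.1, v.1]} := by
        intro u v R
        match R with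
        | Sum.inl R =>
          have e1 : (fun i => (![u, v] i).1) = ![u.1, v.1] := by
            funext i; fin_cases i <;> rfl
          show S.RelMap R (fun i => (![u, v] i).1) ↔ S.RelMap R ![u.1, v.1]
          rw [e1]
        | Sum.inr _ => exact Iff.rfl
      exact Prod.ext (Set.ext (key u v)) (Set.ext (key v u))
    · rintro _ ⟨x, -, rfl⟩
      exact x.2
  -- the case of a linear order
  have hXdef : ∀ c c', BFR S S univ univ (om2 + om2)
      (insert (c, c') (dg (({y, c₀} : Finset M) : Set M))) → (c ∈ X ↔ c' ∈ X) := by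
    intro c c' h
    have hyp : (y, y) ∈ insert (c, c') (dg (({y, c₀} : Finset M) : Set M)) :=
      mem_insert_of_mem _ ⟨y, by simp, rfl⟩
    have h' := h.mono h2η
    exact and_congr (cle_congr h' (mem_insert _ _) hyp) (cle_congr h' hyp (mem_insert _ _))
  have hmonotone : ∀ R : Set M, (R = X ∨ R = insert c₀ X) → ∀ t, LinOver (bt S) (Θ t) R →
      TameX (chainExp S) X := by
    intro R hR t ht
    refine hE2 (fun _ _ => True) ?_
    have hXR : X ⊆ R := by
      rcases hR with rfl | rfl
      · exact Subset.rfl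
      · exact subset_insert _ _
    have hRdef : ∀ c c', BFR S S univ univ (om2 + om2)
        (insert (c, c') (dg (({y, c₀} : Finset M) : Set M))) → (c ∈ R ↔ c' ∈ R) := by
      intro c c' h
      have h1 := hXdef c c' h
      rcases hR with rfl | rfl
      · exact h1
      · rw [mem_insert_iff, mem_insert_iff, h1]
        refine or_congr ?_ Iff.rfl
        exact h.atEq.1 (c, c') (mem_insert _ _) (c₀, c₀) (mem_insert_of_mem _ ⟨c₀, by simp, rfl⟩)
    refine lin_tame hPM hL hS (F := {y, c₀}) hη hXdef hRdef hXR (by simp) ?_ ht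
    intro x hx x' hx' h1 h2 g hg
    by_cases hgQ : g ∈ Q
    · rw [hbtC g hgQ hg x hx, hbtC g hgQ hg x' hx']
      exact bt_ext h2 h1
    · exact module_bt' hQs.1 hgQ (hXQ hx) (hXQ hx')
  rcases trichotomy (rev_bt S) hyz with ⟨a, ha⟩ | ⟨a, ha1, ha2⟩ | hprim
  · -- complete
    refine hsparse a.1 (not_hasTK_of_empty ?_)
    rintro u v ⟨h1, h2, h3, h4⟩
    have h5 := ha u v (hXX u h2 v (hXQ h3) h1)
    have h6 := ha v u (hXX v h3 u (hXQ h2) h1.symm)
    apply h4
    have h7 : bt S v u = ((bt S u v).2, (bt S u v).1) := rfl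
    rw [h6, h5] at h7
    rw [h5]
    exact Prod.ext rfl (congrArg Prod.fst h7).symm
  · -- linear
    refine hE2 (fun u v => u = v ∨ bt S u.1 v.1 = a) ?_
    obtain ⟨K', δ', hV⟩ := hE1 (fun u v => u = v ∨ bt S u.1 v.1 = a) (fun p hp c hc d hd => by
      have h1 : c.1 = d.1 ↔ c.2 = d.2 := by
        have := hp.1 _ ⟨c, hc, rfl⟩ _ ⟨d, hd, rfl⟩
        simpa [Subtype.ext_iff] using this
      have h2 : bt S c.1.1 d.1.1 = bt S c.2.1 d.2.1 :=
        bt_eq_of_atEq hp ⟨c, hc, rfl⟩ ⟨d, hd, rfl⟩
      simp only [h1, h2])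
    let _ : Preorder X :=
      { le := fun u v => u = v ∨ bt S u.1 v.1 = a
        le_refl := fun u => Or.inl rfl
        le_trans := by
          rintro u v w (rfl | huv) (rfl | hvw)
          · exact Or.inl rfl
          · exact Or.inr hvw
          · exact Or.inr huv
          · by_cases h1 : u = v
            · rw [h1]; exact Or.inr hvw
            by_cases h2 : v = w
            · rw [← h2]; exact Or.inr huv
            exact Or.inr (ha2 u.1 v.1 w.1
              (hXX u.1 u.2 v.1 (hXQ v.2) (fun h => h1 (Subtype.ext h)))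
              (hXX v.1 v.2 w.1 (hXQ w.2) (fun h => h2 (Subtype.ext h))) huv hvw).2 }
    have hle : ∀ u v : X, u ≤ v ↔ (u = v ∨ bt S u.1 v.1 = a) := fun u v => Iff.rfl
    have hlt : ∀ u v : X, u < v → bt S u.1 v.1 = a := by
      intro u v huv
      rcases (hle u v).mp huv.le with h | h
      · exact absurd h (ne_of_lt huv)
      · exact h
    refine ls (ar2_expL (L := L)) hV (r := (Sum.inr () : expR L 2)) (o := true) ?_ ?_
    · refine ost_expS hL (fun u v => ?_) ?_
      · by_cases h1 : u = v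
        · exact Or.inl (Or.inl h1)
        · rcases ha1 u.1 v.1 (hXX u.1 u.2 v.1 (hXQ v.2) (fun h => h1 (Subtype.ext h))) with h | h
          · exact Or.inl (Or.inr h.1)
          · exact Or.inr (Or.inr h.1)
      · intro u v u' v' huv huv' _ _ _ _
        rw [bt_pl, bt_pl, hlt u v huv, hlt u' v' huv']
    · intro u
      refine tameX_of_countable ((countable_singleton u).mono ?_)
      rintro v ⟨h1, h2⟩
      by_contra hne
      have hne' : v.1 ≠ u.1 := fun h => hne (Subtype.ext h)
      rcases (hle v u).mp h1 with h3 | h3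
      · exact hne h3
      rcases (hle u v).mp h2 with h4 | h4
      · exact hne h4.symm
      rcases ha1 v.1 u.1 (hXX v.1 v.2 u.1 (hXQ u.2) hne') with h5 | h5
      · exact h5.2 h4
      · exact h5.2 h3
  · -- primitive
    have hself : ∀ x ∈ X, MD.node (bt S) x x ≠ Q := by
      intro x hx h
      rw [node_self] at h
      have h1 : y ∈ ({x} : Set M) := h ▸ hyQ
      have h2 : z ∈ ({x} : Set M) := h ▸ hzQ
      exact hyz ((show y = x from h1).trans (show z = x from h2).symm)
    obtain ⟨R, hRX, hXR, hRt⟩ : ∃ R, (R = X ∨ R = insert c₀ X) ∧ X ⊆ R ∧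
        IsTransversal (bt S) Q R := by
      by_cases hC : ∃ c ∈ Q, c ∉ X
      · obtain ⟨hc1, hc2⟩ := hc₀ hC
        refine ⟨insert c₀ X, Or.inr rfl, subset_insert _ _, ?_, ?_⟩
        · rintro w (rfl | hw)
          · exact hc1
          · exact hXQ hw
        · intro w hw
          by_cases hwX : w ∈ X
          · refine ⟨w, mem_insert_of_mem _ hwX, hself w hwX, ?_⟩
            rintro r' (rfl | hr') hne
            · exact absurd (hXX w hwX _ hc1 (fun h => hc2 (h ▸ hwX))) hne
            · by_contra hcon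
              exact hne (hXX w hwX r' (hXQ hr') (fun h => hcon h.symm))
          · refine ⟨c₀, mem_insert _ _, ?_, ?_⟩
            · intro h
              exact hCC w hw hwX c₀ hc1 hc2 y hyX (h ▸ hyQ)
            · rintro r' (rfl | hr') hne
              · rfl
              · refine absurd ?_ hne
                rw [node_comm]
                exact hXX r' hr' w hw (fun h => hwX (h ▸ hr'))
      · push Not at hC
        refine ⟨X, Or.inl rfl, Subset.rfl, hXQ,
          fun w hw => ⟨w, hC w hw, hself w (hC w hw), ?_⟩⟩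
        intro r' hr' hne
        by_contra hcon
        exact hne (hXX w (hC w hw) r' (hXQ hr') (fun h => hcon h.symm))
    rcases hsp R (hXinf.mono hXR) (hprim R hRt) with ⟨b, hb⟩ | ⟨k, hk⟩ | ⟨t, ht⟩
    · refine hsparse b fun hTK => hb ?_
      refine hasTK_map (G := gr S X b) (G' := gr S R b) (f := id) Function.injective_id
        (fun u v huv => ?_) hTK
      exact ⟨huv.1, hXR huv.2.1, hXR huv.2.2.1, huv.2.2.2⟩
    · exact hlinear k (FinCW.mono hk hXR)
    · exact hmonotone R hRX t ht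

/-- **Chains of nodes.** -/
private theorem TRXq_tame_of_meets (hPM : PMStatement) (hL : Ar2 L) (hS : VSt K δ S)
    {Θ : ℕ → Sch (L.Relations 2)} (hsp : PrimParts Θ S) (hM : Meets S) :
    TameX S univ := by
  obtain ⟨K', δ', hV⟩ := chainExp_vst hL hS
  let _ := chainPre S
  have h1 : TameX (chainExp S) univ := ls (ar2_expL (L := L)) hV (chainExp_ost hL hM)
    fun y => TRXq_chain_class_tame hPM hL hS hsp hM y
  refine h1.reduct fun p _ _ hp => ?_
  exact ((atEq_expS hL).mp hp).1

/-- **Main theorem on large structures.** -/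
private theorem TRXq_tree (hPM : PMStatement) (hL : Ar2 L) (hS : VSt K δ S) {Θ : ℕ → Sch (L.Relations 2)}
    (hsp : PrimParts Θ S) : TameX S univ := by
  by_contra hnt
  -- the case of unbounded Scott levels
  have h1 : ¬ ∀ x y, ¬ TN S x y → ∀ ρ < om1, ∃ u ∈ MD.node (bt S) x y,
      ∃ v ∈ MD.node (bt S) x y, TN S u v ∧ ¬ SL S (MD.node (bt S) u v) ρ :=
    fun h => hnt (tame_of_unbounded hL hS h)
  push Not at h1
  obtain ⟨x, y, hxy, ρ, hρ, h2⟩ := h1
  -- restriction to a node
  obtain ⟨K1, δ1, hV1⟩ := vst_node hL hS hxy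
  set Q := MD.node (bt S) x y with hQ
  have hQs : IsStrong (bt S) Q := isStrong_node x y
  let S1 := pl S (Subtype.val : Q → M)
  have hsp1 : PrimParts Θ S1 := TRXq_pl hsp Subtype.val_injective
  have hnt1 : ¬ TameX S1 univ := by
    intro h
    have h3 : TameX S (Subtype.val '' (univ : Set Q)) := (tameX_pl Subtype.val_injective).mp h
    rw [image_univ, Subtype.range_val] at h3
    exact hxy h3
  have hA : ∀ u v : Q, TN S1 u v → SL S1 (MD.node (bt S1) u v) ρ := by
    intro u v huv
    have h3 : TameX S (Subtype.val '' MD.node (bt S1) u v) :=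
      (tameX_pl Subtype.val_injective).mp huv
    rw [node_pl hQs] at h3
    have h4 := h2 u.1 u.2 v.1 v.2 h3
    rw [SL_pl Subtype.val_injective, node_pl hQs]
    exact h4
  -- the quotient
  obtain ⟨M2, S2, K2, δ2, hV2, ⟨e, he, hbt⟩, hnt2, hT2⟩ := TRXq_quotient hL hV1 hρ hA hnt1
  let Θ' : ℕ → Sch ((quoL L).Relations 2) := Θ
  have hsp2 : PrimParts Θ' S2 := by
    let τ' : M2 → M2 → Set (L.Relations 2) × Set (L.Relations 2) :=
      fun a b => bt (L := quoL L) S2 a b
    have h3 : TRXq_T Θ τ' := TRXq_of_inj (TRXq_iff.mp hsp1) he hbt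
    exact TRXq_iff.mpr h3
  -- a chain of nodes
  obtain ⟨a, b, hab, hmeet⟩ := exists_meeting (ar2_quoL (L := L)) hV2 hT2
  obtain ⟨K3, δ3, hV3⟩ := vst_node (ar2_quoL (L := L)) hV2 (hT2 a b hab)
  set Q2 := MD.node (bt S2) a b with hQ2
  have hQ2s : IsStrong (bt S2) Q2 := isStrong_node a b
  have hsp3 : PrimParts Θ' (pl S2 (Subtype.val : Q2 → M2)) :=
    TRXq_pl hsp2 Subtype.val_injective
  have hM3 : Meets (pl S2 (Subtype.val : Q2 → M2)) := by
    intro u v u' v' huv huv'
    obtain ⟨w, hw1, hw2⟩ := hmeet u.1 v.1 u'.1 v'.1 u.2 v.2 u'.2 v'.2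
      (fun h => huv (Subtype.ext h)) (fun h => huv' (Subtype.ext h))
    rw [← node_pl hQ2s u v] at hw1
    rw [← node_pl hQ2s u' v'] at hw2
    obtain ⟨c, hc, rfl⟩ := hw1
    obtain ⟨c', hc', hcc⟩ := hw2
    exact ⟨c, hc, Subtype.ext hcc ▸ hc'⟩
  have h5 := TRXq_tame_of_meets hPM (ar2_quoL (L := L)) hV3 hsp3 hM3
  have h6 : TameX S2 (Subtype.val '' (univ : Set Q2)) := (tameX_pl Subtype.val_injective).mp h5
  rw [image_univ, Subtype.range_val] at h6
  exact hT2 a b hab h6

end

end Pool.Agent.Helper97.LO.TR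

namespace Pool.Agent.MOQ

open Set Pool.Agent.Helper5 Pool.Agent.Helper5.DU Pool.Agent.Helper6.Str
  Pool.Agent.Helper79.VC Pool.Agent.Helper97.VC Pool.Agent.Helper97.MD Pool.Agent.Helper6.VC
  Pool.Agent.Helper97.LO Pool.Agent.MOP

variable {L : FirstOrder.Language.{0, 0}} {M N P : Type}

section FN

variable [∀ n, IsEmpty (L.Functions n)] [∀ n, Countable (L.Relations n)]
  {K : Set (L.Structure ℕ)} {δ : Ordinal.{0}} {S : L.Structure M}

/-- **Large structures whose primitive parts are sparse, of finite clique-width or monotone are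
tame.** -/
theorem tree_prim (hPM : PMStatement) (hL : Ar2 L) (hS : VSt K δ S) {Θ : ℕ → Sch (L.Relations 2)}
    (h : PrimParts Θ S) : TameX S univ :=
  TR.TRXq_tree hPM hL hS h

end FN

end Pool.Agent.MOQ
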